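import Mathlib

/-!
# Invariant forms on a filiform nilpotent Lie group

`G` is the simply connected nilpotent Lie group of dimension 6 with a basis `e₀, …, e₅` of
left-invariant 1-forms and structure equations `de₀ = de₁ = 0`, `deₖ = e₀ ∧ eₖ₋₁` for `2 ≤ k ≤ 5`.
-/

namespace H956GW

open ExteriorAlgebra

/-- Left-invariant complex 1-forms on `G`, in the basis `e₀, …, e₅`. -/
abbrev V6 : Type := Fin 6 → ℂ

/-- Left-invariant complex differential forms on `G`. -/
abbrev Forms : Type := ExteriorAlgebra ℂ V6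

/-- The basic 1-forms. -/
noncomputable def e (i : Fin 6) : Forms := ι ℂ (Pi.single i 1)

/-- The linear map `e₂ ↦ e₁`, `e₃ ↦ e₂`, `e₄ ↦ e₃`, `e₅ ↦ e₄`, `e₀, e₁ ↦ 0`. -/
def shift : V6 →ₗ[ℂ] V6 where
  toFun v := ![0, v 2, v 3, v 4, v 5, 0]
  map_add' v w := by
    ext i; fin_cases i <;> simp
  map_smul' c v := by
    ext i; fin_cases i <;> simp

/-- Auxiliary: the linear map `v ↦ (-v, e₀ ∧ N v; 0, v)` into `2 × 2` matrices of forms. -/
noncomputable def matGen : V6 →ₗ[ℂ] Matrix (Fin 2) (Fin 2) Forms where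
  toFun v := !![-ι ℂ v, e 0 * ι ℂ (shift v); 0, ι ℂ v]
  map_add' v w := by
    ext i j; fin_cases i <;> fin_cases j <;> simp [mul_add, add_comm]
  map_smul' c v := by
    ext i j; fin_cases i <;> fin_cases j <;> simp

theorem ι_mul_comm (v w : V6) : ι ℂ v * ι ℂ w = -(ι ℂ w * ι ℂ v) :=
  eq_neg_of_add_eq_zero_left (ι_add_mul_swap v w)

theorem matGen_sq (v : V6) : matGen v * matGen v = 0 := by
  have h1 : ι ℂ v * ι ℂ v = 0 := ι_sq_zero v
  have h2 : ι ℂ v * (e 0 * ι ℂ (shift v)) = e 0 * ι ℂ (shift v) * ι ℂ v := by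
    rw [e, ← mul_assoc, ι_mul_comm v, neg_mul, mul_assoc, ι_mul_comm v, mul_neg, neg_neg, mul_assoc]
  ext i j
  fin_cases i <;> fin_cases j <;> simp [matGen, Matrix.mul_apply, Fin.sum_univ_two, h1]
  rw [h2]
  simp

/-- Auxiliary: the algebra homomorphism `x ↦ (x̂, d x; 0, x)`. -/
noncomputable def matHom : Forms →ₐ[ℂ] Matrix (Fin 2) (Fin 2) Forms :=
  ExteriorAlgebra.lift ℂ ⟨matGen, matGen_sq⟩

/-- The sign involution: `(-1) ^ k` on forms of degree `k`. -/
noncomputable abbrev inv : Forms →ₐ[ℂ] Forms := CliffordAlgebra.involute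

/-- The exterior derivative of left-invariant forms. -/
noncomputable def d : Forms →ₗ[ℂ] Forms where
  toFun x := matHom x 0 1
  map_add' x y := by simp
  map_smul' c x := by simp

theorem matHom_ι (v : V6) : matHom (ι ℂ v) = !![-ι ℂ v, e 0 * ι ℂ (shift v); 0, ι ℂ v] := by
  rw [matHom, lift_ι_apply]; rfl

theorem matHom_eq (x : Forms) : matHom x 0 0 = inv x ∧ matHom x 1 0 = 0 ∧ matHom x 1 1 = x := by
  induction x using ExteriorAlgebra.induction with
  | algebraMap r =>
    have : matHom (algebraMap ℂ Forms r) = algebraMap ℂ _ r := matHom.commutes r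
    rw [this, Matrix.algebraMap_matrix_apply, Matrix.algebraMap_matrix_apply,
      Matrix.algebraMap_matrix_apply]
    simp
  | ι v => rw [matHom_ι]; simp
  | mul a b ha hb =>
    rw [map_mul]
    simp only [Matrix.mul_apply, Fin.sum_univ_two, ha.1, ha.2.1, ha.2.2, hb.1, hb.2.1, hb.2.2]
    simp
  | add a b ha hb =>
    rw [map_add]
    simp only [Matrix.add_apply, ha.1, ha.2.1, ha.2.2, hb.1, hb.2.1, hb.2.2]
    simp

@[simp] theorem d_ι (v : V6) : d (ι ℂ v) = e 0 * ι ℂ (shift v) := by
  change matHom (ι ℂ v) 0 1 = _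
  rw [matHom_ι]; simp

@[simp] theorem d_algebraMap (r : ℂ) : d (algebraMap ℂ Forms r) = 0 := by
  change matHom (algebraMap ℂ Forms r) 0 1 = _
  have : matHom (algebraMap ℂ Forms r) = algebraMap ℂ _ r := matHom.commutes r
  rw [this, Matrix.algebraMap_matrix_apply]; simp

@[simp] theorem d_one : d 1 = 0 := by
  have := d_algebraMap 1
  rwa [map_one] at this

/-- The Leibniz rule. -/
theorem d_mul (x y : Forms) : d (x * y) = inv x * d y + d x * y := by
  change matHom (x * y) 0 1 = inv x * matHom y 0 1 + matHom x 0 1 * y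
  rw [map_mul, Matrix.mul_apply, Fin.sum_univ_two, (matHom_eq x).1, (matHom_eq y).2.2]

theorem d_inv (x : Forms) : d (inv x) = -inv (d x) := by
  induction x using ExteriorAlgebra.induction with
  | algebraMap r => simp
  | ι v => simp [e]
  | mul a b ha hb =>
    rw [map_mul, d_mul, d_mul, ha, hb]
    simp only [map_add, map_mul, CliffordAlgebra.involute_involute]
    noncomm_ring
  | add a b ha hb => simp only [map_add, ha, hb]; abel

theorem shift_zero : shift (Pi.single 0 1) = 0 := by
  ext i; fin_cases i <;> simp [shift]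

@[simp] theorem d_e0 : d (e 0) = 0 := by
  rw [e, d_ι, shift_zero, map_zero, mul_zero]

theorem e0_mul_e0 : e 0 * e 0 = 0 := ι_sq_zero _

/-- `v x = x̂ v`. -/
theorem ι_mul (v : V6) (x : Forms) : ι ℂ v * x = inv x * ι ℂ v := by
  induction x using ExteriorAlgebra.induction with
  | algebraMap r => rw [AlgHom.commutes]; exact (Algebra.commutes r _).symm
  | ι w => rw [ι_mul_comm, CliffordAlgebra.involute_ι, neg_mul]
  | mul a b ha hb => rw [← mul_assoc, ha, mul_assoc, hb, ← mul_assoc, map_mul]
  | add a b ha hb => rw [mul_add, ha, hb, map_add, add_mul]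

theorem e0_mul_d (x : Forms) : e 0 * d x = 0 := by
  induction x using ExteriorAlgebra.induction with
  | algebraMap r => simp
  | ι v => rw [d_ι, ← mul_assoc, e0_mul_e0, zero_mul]
  | mul a b ha hb =>
    rw [d_mul, mul_add, ← mul_assoc, ← mul_assoc, ha, zero_mul, add_zero, e, ι_mul, mul_assoc,
      ← e, hb, mul_zero]
  | add a b ha hb => rw [map_add, mul_add, ha, hb, add_zero]

theorem d_d (x : Forms) : d (d x) = 0 := by
  induction x using ExteriorAlgebra.induction with
  | algebraMap r => simp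
  | ι v =>
    rw [d_ι, d_mul, d_e0, zero_mul, add_zero, e, CliffordAlgebra.involute_ι, neg_mul, ← e,
      e0_mul_d, neg_zero]
  | mul a b ha hb =>
    rw [d_mul, map_add, d_mul, d_mul, ha, hb, d_inv]
    simp
  | add a b ha hb => rw [map_add, map_add, ha, hb, add_zero]

/-- Even forms are central. -/
theorem even_comm {x : Forms} (hx : inv x = x) (y : Forms) : x * y = y * x := by
  induction y using ExteriorAlgebra.induction with
  | algebraMap r => exact (Algebra.commutes r x).symm
  | ι v => rw [ι_mul, hx]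
  | mul a b ha hb => rw [← mul_assoc, ha, mul_assoc, hb, ← mul_assoc]
  | add a b ha hb => rw [mul_add, ha, hb, add_mul]

end H956GW
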