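import Pool.Agent.H956GW.CE

namespace H956GW

open ExteriorAlgebra Set Set.powersetCard

/-- The coefficient of `e₀ ∧ e₁ ∧ ⋯ ∧ e₅`: integration of invariant forms over the nilmanifold. -/
noncomputable def top : Forms →ₗ[ℂ] ℂ :=
  liftAlternating (Pi.single 6 (Matrix.detRowAlternating (n := Fin 6) (R := ℂ)))

theorem top_ιMulti_six (v : Fin 6 → V6) : top (ιMulti ℂ 6 v) = Matrix.det v := by
  rw [top, liftAlternating_apply_ιMulti, Pi.single_eq_same]
  rfl

theorem top_ιMulti {n : ℕ} (hn : n ≠ 6) (v : Fin n → V6) : top (ιMulti ℂ n v) = 0 := by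
  rw [top, liftAlternating_apply_ιMulti, Pi.single_eq_of_ne hn]
  rfl

theorem top_deg {n : ℕ} (hn : n ≠ 6) {x : Forms} (hx : x ∈ ⋀[ℂ]^n V6) : top x = 0 := by
  rw [← ιMulti_span_fixedDegree] at hx
  induction hx using Submodule.span_induction with
  | mem x hx => obtain ⟨v, rfl⟩ := hx; exact top_ιMulti hn v
  | zero => exact map_zero _
  | add x y _ _ hx hy => rw [map_add, hx, hy, add_zero]
  | smul c x _ hx => rw [map_smul, hx, smul_zero]

/-- The monomial basis. -/
noncomputable abbrev bE : Module.Basis (Finset (Fin 6)) ℂ Forms :=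
  (Pi.basisFun ℂ (Fin 6)).ExteriorAlgebra

theorem bE_mem (s : Finset (Fin 6)) : bE s ∈ ⋀[ℂ]^s.card V6 := by
  rw [bE, basis_apply]
  exact ιMulti_range ℂ _ ⟨_, rfl⟩

instance : Module.Finite ℂ Forms := Module.Finite.of_basis bE

theorem top_bE_univ : top (bE Finset.univ) ≠ 0 := by
  have hc : (Finset.univ : Finset (Fin 6)).card = 6 := by simp
  rw [bE, basis_apply_ofCard (Pi.basisFun ℂ (Fin 6)) hc]
  rw [ιMulti_family, top_ιMulti_six]
  have hli : LinearIndependent ℂ ((Pi.basisFun ℂ (Fin 6)) ∘ (ofFinEmbEquiv.symm (ofCard hc))) :=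
    (Pi.basisFun ℂ (Fin 6)).linearIndependent.comp _ (ofFinEmbEquiv.symm (ofCard hc)).injective
  have := (Matrix.linearIndependent_rows_iff_isUnit (K := ℂ)
    (A := ((Pi.basisFun ℂ (Fin 6)) ∘ (ofFinEmbEquiv.symm (ofCard hc)) : Fin 6 → Fin 6 → ℂ))).1 hli
  rw [Matrix.isUnit_iff_isUnit_det] at this
  exact this.ne_zero

theorem top_bE_mul (T S : Finset (Fin 6)) (h : T ≠ S) : top (bE T * bE Sᶜ) = 0 := by
  by_cases hd : Disjoint T Sᶜ
  · have h1 := basis_mul_of_disjoint (Pi.basisFun ℂ (Fin 6)) (ofCard (rfl : T.card = T.card))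
      (ofCard (rfl : (Sᶜ).card = (Sᶜ).card)) hd
    change bE T * bE Sᶜ = _ at h1
    rw [h1, Units.smul_def, map_zsmul]
    have h2 : (disjUnion (s := ofCard (rfl : T.card = T.card))
      (t := ofCard (rfl : (Sᶜ).card = (Sᶜ).card)) hd : Finset (Fin 6)).card = T.card + (Sᶜ).card :=
      by simp [Finset.card_union_of_disjoint hd]
    have h3 : T.card + (Sᶜ).card ≠ 6 := by
      rw [← Finset.card_union_of_disjoint hd]
      intro h6
      have : T ∪ Sᶜ = Finset.univ := by
        apply Finset.eq_univ_of_card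
        rw [h6]; simp
      apply h
      apply Finset.Subset.antisymm
      · intro i hi
        by_contra hiS
        exact (Finset.disjoint_left.1 hd) hi (Finset.mem_compl.2 hiS)
      · intro i hi
        have : i ∈ T ∪ Sᶜ := by rw [this]; exact Finset.mem_univ i
        rcases Finset.mem_union.1 this with h | h
        · exact h
        · exact absurd hi (Finset.mem_compl.1 h)
    have h4 := bE_mem (disjUnion (s := ofCard (rfl : T.card = T.card))
      (t := ofCard (rfl : (Sᶜ).card = (Sᶜ).card)) hd : Finset (Fin 6))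
    rw [h2] at h4
    rw [top_deg h3 h4, smul_zero]
  · have h1 := basis_mul_of_not_disjoint (Pi.basisFun ℂ (Fin 6)) (ofCard (rfl : T.card = T.card))
      (ofCard (rfl : (Sᶜ).card = (Sᶜ).card)) hd
    change bE T * bE Sᶜ = _ at h1
    rw [h1, map_zero]

theorem top_bE_mul_self (S : Finset (Fin 6)) : top (bE S * bE Sᶜ) ≠ 0 := by
  have hd : Disjoint S Sᶜ := disjoint_compl_right
  have h1 := basis_mul_of_disjoint (Pi.basisFun ℂ (Fin 6)) (ofCard (rfl : S.card = S.card))
      (ofCard (rfl : (Sᶜ).card = (Sᶜ).card)) hd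
  change bE S * bE Sᶜ = _ at h1
  rw [h1, Units.smul_def, map_zsmul]
  have h2 : (disjUnion (s := ofCard (rfl : S.card = S.card))
      (t := ofCard (rfl : (Sᶜ).card = (Sᶜ).card)) hd : Finset (Fin 6)) = Finset.univ := by
    simp
  rw [h2]
  rw [zsmul_eq_mul]
  refine mul_ne_zero ?_ top_bE_univ
  exact_mod_cast (Units.ne_zero _)

/-- The wedge pairing is nondegenerate. -/
theorem eq_zero_of_top_mul (x : Forms) (h : ∀ y, top (x * y) = 0) : x = 0 := by
  apply bE.ext_elem
  intro S
  have h1 := h (bE Sᶜ)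
  rw [← bE.sum_repr x, Finset.sum_mul, map_sum, Finset.sum_eq_single S] at h1
  · rw [smul_mul_assoc, map_smul, smul_eq_mul] at h1
    rw [map_zero]
    exact (mul_eq_zero.1 h1).resolve_right (top_bE_mul_self S)
  · intro T _ hT
    rw [smul_mul_assoc, map_smul, top_bE_mul T S hT, smul_zero]
  · intro h; exact absurd (Finset.mem_univ S) h

/-- `top` vanishes on odd forms. -/
theorem top_inv (x : Forms) : top (inv x) = top x := by
  have : top ∘ₗ inv.toLinearMap = top := by
    apply bE.ext
    intro S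
    suffices ∀ x ∈ ⋀[ℂ]^(S.card) V6, top (inv x) = top x from this _ (bE_mem S)
    intro x hS
    rw [← ιMulti_span_fixedDegree] at hS
    induction hS using Submodule.span_induction with
    | mem x hx =>
      obtain ⟨v, rfl⟩ := hx
      have : ∀ (n : ℕ) (v : Fin n → V6), inv (ιMulti ℂ n v) = (-1 : ℂ) ^ n • ιMulti ℂ n v := by
        intro n
        induction n with
        | zero => intro v; simp
        | succ n ih =>
          intro v
          rw [ιMulti_succ_apply, map_mul, ih, CliffordAlgebra.involute_ι, pow_succ]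
          simp
      rw [this, map_smul]
      by_cases h6 : S.card = 6
      · have h1 : (-1 : ℂ) ^ S.card = 1 := by rw [h6]; norm_num
        rw [h1, one_smul]
      · rw [top_ιMulti h6, smul_zero]
    | zero => simp
    | add x y _ _ hx hy => rw [map_add, map_add, map_add, hx, hy]
    | smul c x _ hx => rw [map_smul, map_smul, map_smul, hx]
  exact LinearMap.congr_fun this x

theorem top_odd {x : Forms} (hx : inv x = -x) : top x = 0 := by
  have := top_inv x
  rw [hx, map_neg] at this
  exact self_eq_neg.1 this.symm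

end H956GW
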