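import Pool.Agent.H956GW.CE2

namespace H956GW

open ExteriorAlgebra Set Set.powersetCard

theorem ι_mem (v : V6) : ι ℂ v ∈ ⋀[ℂ]^1 V6 := by
  rw [exteriorPower, pow_one]; exact LinearMap.mem_range_self _ _

theorem mul_mem_deg {m n : ℕ} {x y : Forms} (hx : x ∈ ⋀[ℂ]^m V6) (hy : y ∈ ⋀[ℂ]^n V6) :
    x * y ∈ ⋀[ℂ]^(m + n) V6 := by
  rw [exteriorPower, pow_add]; exact Submodule.mul_mem_mul hx hy

/-- `d` raises the degree by one. -/
theorem d_mem {n : ℕ} {x : Forms} (hx : x ∈ ⋀[ℂ]^n V6) : d x ∈ ⋀[ℂ]^(n + 1) V6 := by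
  have key : ∀ (n : ℕ) (v : Fin n → V6), d (ιMulti ℂ n v) ∈ ⋀[ℂ]^(n + 1) V6 := by
    intro n
    induction n with
    | zero => intro v; rw [ιMulti_zero_apply, d_one]; exact Submodule.zero_mem _
    | succ n ih =>
      intro v
      rw [ιMulti_succ_apply, d_mul, d_ι, CliffordAlgebra.involute_ι]
      refine Submodule.add_mem _ ?_ ?_
      · rw [neg_mul]
        refine Submodule.neg_mem _ ?_
        have := mul_mem_deg (ι_mem (v 0)) (ih (Matrix.vecTail v))
        rwa [show 1 + (n + 1) = n + 1 + 1 by ring] at this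
      · have := mul_mem_deg (mul_mem_deg (ι_mem (Pi.single 0 1)) (ι_mem (shift (v 0))))
          (ιMulti_range ℂ n ⟨Matrix.vecTail v, rfl⟩)
        rwa [show 1 + 1 + n = n + 1 + 1 by ring] at this
  rw [← ιMulti_span_fixedDegree] at hx
  induction hx using Submodule.span_induction with
  | mem x hx => obtain ⟨v, rfl⟩ := hx; exact key n v
  | zero => rw [map_zero]; exact Submodule.zero_mem _
  | add x y _ _ hx hy => rw [map_add]; exact Submodule.add_mem _ hx hy
  | smul c x _ hx => rw [map_smul]; exact Submodule.smul_mem _ _ hx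

/-- Contraction with the vector dual to `e₀`. -/
noncomputable def contr : Forms →ₗ[ℂ] Forms :=
  CliffordAlgebra.contractLeft (Q := (0 : QuadraticForm ℂ V6)) (LinearMap.proj 0)

theorem contr_ι_mul (v : V6) (x : Forms) : contr (ι ℂ v * x) = v 0 • x - ι ℂ v * contr x :=
  CliffordAlgebra.contractLeft_ι_mul _ _ _

theorem contr_e0 (x : Forms) : contr (e 0 * x) = x - e 0 * contr x := by
  rw [e, contr_ι_mul]; simp

/-- A form killed by `e₀` is divisible by `e₀`. -/
theorem eq_e0_mul {x : Forms} (hx : e 0 * x = 0) : x = e 0 * contr x := by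
  have := contr_e0 x
  rw [hx, map_zero] at this
  exact (sub_eq_zero.1 this.symm)

theorem d_eq_zero_of_e0_mul {x : Forms} (hx : e 0 * x = 0) : d x = 0 := by
  rw [eq_e0_mul hx, d_mul, d_e0, zero_mul, add_zero, e, CliffordAlgebra.involute_ι, neg_mul, ← e,
    e0_mul_d, neg_zero]

theorem e_mul_e (i : Fin 6) : e i * e i = 0 := ι_sq_zero _

theorem e_comm (i j : Fin 6) : e i * e j = -(e j * e i) := ι_mul_comm _ _

theorem shift_single {i j : Fin 6} (hij : j.val = i.val + 1) (hi : 1 ≤ i.val) :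
    shift (Pi.single j 1) = Pi.single i 1 := by
  ext k
  fin_cases i <;> fin_cases j <;> simp at hij hi <;> fin_cases k <;> simp [shift]

theorem d_e1 : d (e 1) = 0 := by
  have : shift (Pi.single 1 1) = 0 := by
    ext k; fin_cases k <;> simp [shift]
  rw [e, d_ι, this, map_zero, mul_zero]

theorem d_e2 : d (e 2) = e 0 * e 1 := by
  rw [e, d_ι, shift_single (i := 1) (j := 2) rfl le_rfl, ← e]
theorem d_e3 : d (e 3) = e 0 * e 2 := by
  rw [e, d_ι, shift_single (i := 2) (j := 3) rfl (by decide), ← e]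
theorem d_e4 : d (e 4) = e 0 * e 3 := by
  rw [e, d_ι, shift_single (i := 3) (j := 4) rfl (by decide), ← e]
theorem d_e5 : d (e 5) = e 0 * e 4 := by
  rw [e, d_ι, shift_single (i := 4) (j := 5) rfl (by decide), ← e]

theorem inv_e (i : Fin 6) : inv (e i) = -e i := CliffordAlgebra.involute_ι _

theorem d_e_mul (i : Fin 6) (x : Forms) : d (e i * x) = d (e i) * x - e i * d x := by
  rw [d_mul, inv_e]; noncomm_ring

/-- The volume form of `e₁, …, e₅` is closed. -/
theorem d_e12345 : d (e 1 * (e 2 * (e 3 * (e 4 * e 5)))) = 0 := by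
  have h54 : d (e 4 * e 5) = e 0 * (e 3 * e 5) := by
    rw [d_e_mul, d_e4, d_e5, ← mul_assoc (e 4), e_comm 4 0, neg_mul, mul_assoc (e 0) (e 4), e_mul_e,
      mul_assoc (e 0) (e 3)]
    noncomm_ring
  have h345 : d (e 3 * (e 4 * e 5)) = e 0 * (e 2 * (e 4 * e 5)) := by
    rw [d_e_mul, d_e3, h54, ← mul_assoc (e 3) (e 0), e_comm 3 0, neg_mul, mul_assoc (e 0) (e 3),
      ← mul_assoc (e 3) (e 3), e_mul_e]
    noncomm_ring
  have h2345 : d (e 2 * (e 3 * (e 4 * e 5))) = e 0 * (e 1 * (e 3 * (e 4 * e 5))) := by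
    rw [d_e_mul, d_e2, h345, ← mul_assoc (e 2) (e 0), e_comm 2 0, neg_mul, mul_assoc (e 0) (e 2),
      ← mul_assoc (e 2) (e 2), e_mul_e]
    noncomm_ring
  rw [d_e_mul, d_e1, h2345, ← mul_assoc (e 1) (e 0), e_comm 1 0, neg_mul, mul_assoc (e 0) (e 1),
      ← mul_assoc (e 1) (e 1), e_mul_e]
  noncomm_ring

/-- **Stokes' theorem** for invariant forms. -/
theorem top_d (x : Forms) : top (d x) = 0 := by
  have : top ∘ₗ d = 0 := by
    apply bE.ext
    intro S
    change top (d (bE S)) = 0
    by_cases h0 : (0 : Fin 6) ∈ S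
    · have h1 : e 0 * bE S = 0 := by
        rw [bE, basis_apply]
        have h0' : (0 : Fin 6) ∈ (ofCard (rfl : S.card = S.card)) := h0
        obtain ⟨i, hi⟩ := (mem_range_ofFinEmbEquiv_symm_iff_mem _ _).mpr h0'
        have h2 := ι_mul_prod_list (R := ℂ)
          (fun j => (Pi.basisFun ℂ (Fin 6)) ((ofFinEmbEquiv.symm (ofCard (rfl : S.card = S.card))) j)) i
        simp only [hi, Pi.basisFun_apply] at h2
        rw [e]
        rw [← h2, ιMulti_family, ιMulti_apply]
        simp only [Function.comp_apply, Pi.basisFun_apply]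
        rfl
      rw [d_eq_zero_of_e0_mul h1, map_zero]
    · by_cases h5 : S.card = 5
      · have hS : S = Finset.univ.erase 0 := by
          refine Finset.eq_of_subset_of_card_le ?_ ?_
          · intro i hi
            exact Finset.mem_erase.2 ⟨fun h => h0 (h ▸ hi), Finset.mem_univ i⟩
          · rw [h5]; simp
        have hc : (Finset.univ.erase (0 : Fin 6)).card = 5 := by simp
        rw [hS, bE, basis_apply_ofCard _ hc, ιMulti_family]
        have hemb : (ofFinEmbEquiv.symm (ofCard hc)) = Fin.succOrderEmb 5 := by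
          rw [ofFinEmbEquiv_symm_apply]
          symm
          apply Finset.orderEmbOfFin_unique'
          intro i
          change i.succ ∈ Finset.univ.erase (0 : Fin 6)
          simp
        rw [hemb]
        have : ιMulti ℂ 5 ((Pi.basisFun ℂ (Fin 6)) ∘ (Fin.succOrderEmb 5)) =
            e 1 * (e 2 * (e 3 * (e 4 * e 5))) := by
          rw [ιMulti_apply]
          simp [List.ofFn_succ, e]
        rw [this, d_e12345, map_zero]
      · refine top_deg ?_ (d_mem (bE_mem S))
        intro h; exact h5 (by omega)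
  exact LinearMap.congr_fun this x

end H956GW
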