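import Pool.Agent.H956GW.CE3

namespace H956GW

open ExteriorAlgebra

/-- The algebra of closed invariant forms of even degree. -/
noncomputable def Closed : Subalgebra ℂ Forms where
  carrier := {x | inv x = x ∧ d x = 0}
  mul_mem' := by
    rintro x y ⟨hx, hx'⟩ ⟨hy, hy'⟩
    refine ⟨by rw [map_mul, hx, hy], ?_⟩
    rw [d_mul, hx', hy', mul_zero, zero_mul, add_zero]
  add_mem' := by
    rintro x y ⟨hx, hx'⟩ ⟨hy, hy'⟩
    exact ⟨by rw [map_add, hx, hy], by rw [map_add, hx', hy', add_zero]⟩
  algebraMap_mem' := by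
    intro r
    exact ⟨AlgHom.commutes _ _, d_algebraMap r⟩

theorem Closed.inv_eq (x : Closed) : inv (x : Forms) = x := x.2.1
theorem Closed.d_eq (x : Closed) : d (x : Forms) = 0 := x.2.2

noncomputable instance : CommRing Closed :=
  { (inferInstance : Ring Closed) with
    mul_comm := fun x y => Subtype.ext (even_comm x.2.1 y) }

/-- The ideal of exact invariant forms of even degree. -/
noncomputable def Exact : Ideal Closed where
  carrier := {z | ∃ y : Forms, inv y = -y ∧ d y = (z : Forms)}
  add_mem' := by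
    rintro _ _ ⟨x, hx, hx'⟩ ⟨y, hy, hy'⟩
    refine ⟨x + y, ?_, ?_⟩
    · rw [map_add, hx, hy, neg_add]
    · rw [map_add, hx', hy']; rfl
  zero_mem' := ⟨0, by simp, by simp⟩
  smul_mem' := by
    rintro w _ ⟨y, hy, hy'⟩
    refine ⟨w * y, ?_, ?_⟩
    · rw [map_mul, hy, Closed.inv_eq w, mul_neg]
    · rw [d_mul, Closed.inv_eq w, Closed.d_eq w, zero_mul, add_zero, hy']; rfl

/-- The even part of the cohomology ring of the complex of invariant forms. -/
abbrev Hev : Type := Closed ⧸ Exact

/-- The cohomology class of a closed form. -/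
noncomputable def cls : Closed →ₐ[ℂ] Hev := Ideal.Quotient.mkₐ ℂ Exact

theorem cls_surjective : Function.Surjective cls := Ideal.Quotient.mkₐ_surjective ℂ Exact

theorem cls_eq_zero {z : Closed} : cls z = 0 ↔ ∃ y : Forms, inv y = -y ∧ d y = (z : Forms) := by
  have : cls z = 0 ↔ z ∈ Exact := Ideal.Quotient.eq_zero_iff_mem
  rw [this]; rfl

/-- The classes of degree `2k`. -/
noncomputable def deg (k : ℕ) : Submodule ℂ Hev :=
  ((⋀[ℂ]^(2 * k) V6).comap Closed.val.toLinearMap).map cls.toLinearMap

/-- The filtration of the even cohomology by degree: the classes of degree at most `p`. -/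
noncomputable def degFilt (p : ℤ) : Submodule ℂ Hev := ⨆ (k : ℕ) (_ : 2 * (k : ℤ) ≤ p), deg k

/-- Integration over the nilmanifold. -/
noncomputable def integral : Hev →ₗ[ℂ] ℂ :=
  ((Exact.restrictScalars ℂ).liftQ (top ∘ₗ Closed.val.toLinearMap) (by
    rintro z ⟨y, -, hy⟩
    change top (z : Forms) = 0
    rw [← hy, top_d])) ∘ₗ
  (Submodule.Quotient.restrictScalarsEquiv ℂ Exact).symm.toLinearMap

theorem integral_cls (z : Closed) : integral (cls z) = top (z : Forms) := rfl

/-- Poincaré duality: the pairing `∫ x y` on the even cohomology is nondegenerate. -/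
theorem eq_zero_of_integral_mul (x : Hev) (h : ∀ y, integral (x * y) = 0) : x = 0 := by
  obtain ⟨z, rfl⟩ := cls_surjective x
  rw [cls_eq_zero]
  have hz : ∀ w : Closed, top ((z : Forms) * w) = 0 := by
    intro w
    have := h (cls w)
    rw [← map_mul, integral_cls] at this
    exact this
  -- the functional `w ↦ top (z w)` vanishes on closed forms
  have hker : LinearMap.ker d ≤ LinearMap.ker (top ∘ₗ LinearMap.mulLeft ℂ (z : Forms)) := by
    intro w hw
    have hw' : d w = 0 := hw
    have hdi : d (inv w) = 0 := by rw [d_inv, hw', map_zero, neg_zero]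
    -- even part
    let we : Closed := ⟨(1 / 2 : ℂ) • (w + inv w), by
      constructor
      · rw [map_smul, map_add, CliffordAlgebra.involute_involute, add_comm]
      · rw [map_smul, map_add, hw', hdi, add_zero, smul_zero]⟩
    have h1 : top ((z : Forms) * we) = 0 := hz we
    have h2 : top ((z : Forms) * ((1 / 2 : ℂ) • (w - inv w))) = 0 := by
      apply top_odd
      rw [map_mul, map_smul, map_sub, CliffordAlgebra.involute_involute, Closed.inv_eq z,
        ← mul_neg, ← smul_neg, neg_sub]
    change top ((z : Forms) * w) = 0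
    have h3 : w = ((1 / 2 : ℂ) • (w + inv w)) + ((1 / 2 : ℂ) • (w - inv w)) := by
      module
    rw [h3, mul_add, map_add, h2, add_zero]
    exact h1
  obtain ⟨l, hl⟩ : ∃ l : Forms →ₗ[ℂ] ℂ, l ∘ₗ d = top ∘ₗ LinearMap.mulLeft ℂ (z : Forms) := by
    have := (LinearMap.range_dualMap_eq_dualAnnihilator_ker d)
    have h2 : (top ∘ₗ LinearMap.mulLeft ℂ (z : Forms)) ∈ LinearMap.range d.dualMap := by
      rw [this, Submodule.mem_dualAnnihilator]
      intro w hw
      exact hker hw
    obtain ⟨l, hl⟩ := h2
    exact ⟨l, hl⟩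
  -- `l` is the pairing with a form `η`
  let P : Forms →ₗ[ℂ] Module.Dual ℂ Forms :=
    { toFun := fun η => top ∘ₗ LinearMap.mulLeft ℂ η
      map_add' := fun a b => by ext w; simp [add_mul]
      map_smul' := fun c a => by ext w; simp }
  have hPinj : Function.Injective P := by
    rw [← LinearMap.ker_eq_bot, LinearMap.ker_eq_bot']
    intro η hη
    exact eq_zero_of_top_mul η fun y => LinearMap.congr_fun hη y
  have hPsurj : Function.Surjective P :=
    (LinearMap.injective_iff_surjective_of_finrank_eq_finrank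
      (Subspace.dual_finrank_eq (K := ℂ) (V := Forms)).symm).1 hPinj
  obtain ⟨η, hη⟩ := hPsurj l
  have hzη : (z : Forms) = -d (inv η) := by
    rw [← sub_eq_zero]
    apply eq_zero_of_top_mul
    intro w
    have h1 : top ((z : Forms) * w) = l (d w) := (LinearMap.congr_fun hl w).symm
    have h2 : l (d w) = top (η * d w) := by rw [← hη]; rfl
    have h3 : top (d (inv η * w)) = 0 := top_d _
    rw [d_mul, CliffordAlgebra.involute_involute, map_add] at h3
    rw [sub_mul, map_sub, h1, h2, neg_mul, map_neg, sub_neg_eq_add, h3]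
  have hid : ∀ x : Forms, inv (d x) = -d (inv x) := fun x => by rw [d_inv, neg_neg]
  refine ⟨-((1 / 2 : ℂ) • (inv η - η)), ?_, ?_⟩
  · rw [map_neg, map_smul, map_sub, CliffordAlgebra.involute_involute]
    module
  · have h1 : (z : Forms) = (1 / 2 : ℂ) • ((z : Forms) + inv (z : Forms)) := by
      rw [Closed.inv_eq]; module
    rw [h1, hzη]
    simp only [map_neg, hid, CliffordAlgebra.involute_involute, map_smul, map_sub]
    module

end H956GW
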