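import Pool.Agent.H956GW.CE4

namespace H956GW

open ExteriorAlgebra Set.powersetCard

theorem inv_deg {n : ℕ} {x : Forms} (hx : x ∈ ⋀[ℂ]^n V6) : inv x = (-1 : ℂ) ^ n • x := by
  rw [← ιMulti_span_fixedDegree] at hx
  induction hx using Submodule.span_induction with
  | mem x hx =>
    obtain ⟨v, rfl⟩ := hx
    have : ∀ (n : ℕ) (v : Fin n → V6), inv (ιMulti ℂ n v) = (-1 : ℂ) ^ n • ιMulti ℂ n v := by
      intro n
      induction n with
      | zero => intro v; simp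
      | succ n ih =>
        intro v
        rw [ιMulti_succ_apply, map_mul, ih, CliffordAlgebra.involute_ι, pow_succ]
        simp
    exact this n v
  | zero => simp
  | add x y _ _ hx hy => rw [map_add, hx, hy, smul_add]
  | smul c x _ hx => rw [map_smul, hx, smul_comm]

theorem eq_zero_of_deg {n : ℕ} (hn : 6 < n) {x : Forms} (hx : x ∈ ⋀[ℂ]^n V6) : x = 0 := by
  rw [← ιMulti_span_fixedDegree] at hx
  induction hx using Submodule.span_induction with
  | mem x hx =>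
    obtain ⟨v, rfl⟩ := hx
    apply AlternatingMap.map_linearDependent
    intro h
    have := h.fintype_card_le_finrank
    simp at this
    omega
  | zero => rfl
  | add x y _ _ hx hy => rw [hx, hy, add_zero]
  | smul c x _ hx => rw [hx, smul_zero]

theorem mem_deg {k : ℕ} {x : Hev} :
    x ∈ deg k ↔ ∃ z : Closed, (z : Forms) ∈ ⋀[ℂ]^(2 * k) V6 ∧ cls z = x := by
  rw [deg, Submodule.mem_map]
  rfl

theorem deg_zero : deg 0 = Submodule.span ℂ {1} := by
  apply le_antisymm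
  · intro x hx
    obtain ⟨z, hz, rfl⟩ := mem_deg.1 hx
    have hz' : (z : Forms) ∈ (1 : Submodule ℂ Forms) := by
      have h0 : (⋀[ℂ]^(2 * 0) V6) = (1 : Submodule ℂ Forms) := by simp [exteriorPower]
      rwa [h0] at hz
    obtain ⟨r, hr⟩ := Submodule.mem_one.1 hz'
    have : z = algebraMap ℂ Closed r := Subtype.ext hr.symm
    rw [this, AlgHom.commutes, Algebra.algebraMap_eq_smul_one]
    exact Submodule.smul_mem _ _ (Submodule.mem_span_singleton_self _)
  · rw [Submodule.span_singleton_le_iff_mem, mem_deg]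
    refine ⟨1, ?_, map_one _⟩
    have h0 : (⋀[ℂ]^(2 * 0) V6) = (1 : Submodule ℂ Forms) := by simp [exteriorPower]
    rw [h0]
    exact Submodule.one_le.1 le_rfl

theorem mul_mem_deg_add {i j : ℕ} {x y : Hev} (hx : x ∈ deg i) (hy : y ∈ deg j) :
    x * y ∈ deg (i + j) := by
  obtain ⟨z, hz, rfl⟩ := mem_deg.1 hx
  obtain ⟨w, hw, rfl⟩ := mem_deg.1 hy
  refine mem_deg.2 ⟨z * w, ?_, map_mul _ _ _⟩
  have := mul_mem_deg hz hw
  rwa [← mul_add] at this

theorem pow_mem_deg {x : Hev} (hx : x ∈ deg 1) (k : ℕ) : x ^ k ∈ deg k := by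
  induction k with
  | zero => rw [pow_zero, deg_zero]; exact Submodule.mem_span_singleton_self _
  | succ k ih => rw [pow_succ]; exact mul_mem_deg_add ih hx

theorem integral_deg {k : ℕ} (hk : k ≠ 3) {x : Hev} (hx : x ∈ deg k) : integral x = 0 := by
  obtain ⟨z, hz, rfl⟩ := mem_deg.1 hx
  rw [integral_cls]
  exact top_deg (by omega) hz

theorem deg_eq_bot {k : ℕ} (hk : 3 < k) {x : Hev} (hx : x ∈ deg k) : x = 0 := by
  obtain ⟨z, hz, rfl⟩ := mem_deg.1 hx
  have : z = 0 := Subtype.ext (eq_zero_of_deg (by omega) hz)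
  rw [this, map_zero]

theorem e_mem (i : Fin 6) : e i ∈ ⋀[ℂ]^1 V6 := ι_mem _

theorem ee_mem (i j : Fin 6) : e i * e j ∈ ⋀[ℂ]^2 V6 := mul_mem_deg (e_mem i) (e_mem j)

theorem inv_ee (i j : Fin 6) : inv (e i * e j) = e i * e j := by
  rw [map_mul, inv_e, inv_e, neg_mul_neg]

theorem top_perm {s : Fin 6 → Fin 6} (hs : Function.Injective s) :
    top (e (s 0) * (e (s 1) * (e (s 2) * (e (s 3) * (e (s 4) * e (s 5)))))) ≠ 0 := by
  have h1 : e (s 0) * (e (s 1) * (e (s 2) * (e (s 3) * (e (s 4) * e (s 5))))) =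
      ιMulti ℂ 6 (fun i => (Pi.single (s i) 1 : V6)) := by
    rw [ιMulti_apply]
    simp [List.ofFn_succ, e]
  rw [h1, top_ιMulti_six]
  have hli : LinearIndependent ℂ (fun i => (Pi.single (s i) 1 : V6)) := by
    have := (Pi.basisFun ℂ (Fin 6)).linearIndependent.comp s hs
    convert this using 1
    ext i; simp
  have := (Matrix.linearIndependent_rows_iff_isUnit (K := ℂ)
    (A := (fun i => (Pi.single (s i) 1 : V6)))).1 hli
  rw [Matrix.isUnit_iff_isUnit_det] at this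
  exact this.ne_zero

/-- `e₁ ∧ e₂` is not exact. -/
theorem e12_not_exact (y : Forms) : d y ≠ e 1 * e 2 := by
  intro h
  have h0 : e 0 * (e 1 * e 2) = 0 := by rw [← h, e0_mul_d]
  have h1 := top_perm (s := ![0, 1, 2, 3, 4, 5]) (by decide)
  apply h1
  simp only [Matrix.cons_val]
  have : e 0 * (e 1 * (e 2 * (e 3 * (e 4 * e 5)))) =
    (e 0 * (e 1 * e 2)) * (e 3 * (e 4 * e 5)) := by noncomm_ring
  rw [this, h0, zero_mul, map_zero]

theorem top_exact_mul (η : Forms) (z : Closed) : top (d η * (z : Forms)) = 0 := by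
  have h := top_d (η * z)
  rwa [d_mul, Closed.d_eq z, mul_zero, zero_add] at h

theorem d_e_e (i j : Fin 6) : d (e i * e j) = d (e i) * e j - e i * d (e j) := d_e_mul i _

theorem exact3 : d (e 1 * (e 2 * e 4)) = e 0 * (e 1 * (e 2 * e 3)) := by
  rw [d_e_mul, d_e1, d_e_e, d_e2, d_e4]
  have h1 : e 1 * (e 0 * e 1 * e 4 - e 2 * (e 0 * e 3)) =
    e 1 * e 0 * e 1 * e 4 - e 1 * (e 2 * e 0) * e 3 := by noncomm_ring
  rw [h1, e_comm 1 0, e_comm 2 0]
  have h2 : 0 * (e 2 * e 4) - (-(e 0 * e 1) * e 1 * e 4 - e 1 * -(e 0 * e 2) * e 3) =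
    e 0 * (e 1 * e 1) * e 4 - (e 1 * e 0) * e 2 * e 3 := by noncomm_ring
  rw [h2, e_mul_e, e_comm 1 0]
  noncomm_ring

theorem exact4 : d (e 1 * (e 2 * e 5)) = e 0 * (e 1 * (e 2 * e 4)) := by
  rw [d_e_mul, d_e1, d_e_e, d_e2, d_e5]
  have h1 : e 1 * (e 0 * e 1 * e 5 - e 2 * (e 0 * e 4)) =
    e 1 * e 0 * e 1 * e 5 - e 1 * (e 2 * e 0) * e 4 := by noncomm_ring
  rw [h1, e_comm 1 0, e_comm 2 0]
  have h2 : 0 * (e 2 * e 5) - (-(e 0 * e 1) * e 1 * e 5 - e 1 * -(e 0 * e 2) * e 4) =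
    e 0 * (e 1 * e 1) * e 5 - (e 1 * e 0) * e 2 * e 4 := by noncomm_ring
  rw [h2, e_mul_e, e_comm 1 0]
  noncomm_ring

theorem exact5 : d (e 1 * (e 3 * e 5) - e 2 * (e 3 * e 4)) = e 0 * (e 1 * (e 2 * e 5)) := by
  rw [map_sub, d_e_mul 1 (e 3 * e 5), d_e_mul 2 (e 3 * e 4), d_e1, d_e_e, d_e_e, d_e2, d_e3, d_e4,
    d_e5]
  have h1 : 0 * (e 3 * e 5) - e 1 * (e 0 * e 2 * e 5 - e 3 * (e 0 * e 4)) -
      (e 0 * e 1 * (e 3 * e 4) - e 2 * (e 0 * e 2 * e 4 - e 3 * (e 0 * e 3))) =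
    -((e 1 * e 0) * e 2 * e 5) + e 1 * (e 3 * e 0) * e 4 - e 0 * e 1 * (e 3 * e 4) +
      (e 2 * e 0) * e 2 * e 4 - e 2 * (e 3 * e 0) * e 3 := by noncomm_ring
  rw [h1, e_comm 1 0, e_comm 3 0, e_comm 2 0]
  have h2 : -(-(e 0 * e 1) * e 2 * e 5) + e 1 * -(e 0 * e 3) * e 4 - e 0 * e 1 * (e 3 * e 4) +
      -(e 0 * e 2) * e 2 * e 4 - e 2 * -(e 0 * e 3) * e 3 =
    e 0 * e 1 * e 2 * e 5 - (e 1 * e 0) * e 3 * e 4 - e 0 * e 1 * (e 3 * e 4) -
      e 0 * (e 2 * e 2) * e 4 + e 2 * e 0 * (e 3 * e 3) := by noncomm_ring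
  rw [h2, e_mul_e, e_mul_e, e_comm 1 0]
  noncomm_ring

/-- A closed 2-form `z` satisfies `e₀ e₁ e₂ z = 0`. -/
theorem e012_mul (z : Closed) (hz : (z : Forms) ∈ ⋀[ℂ]^2 V6) :
    e 0 * (e 1 * (e 2 * (z : Forms))) = 0 := by
  apply eq_zero_of_top_mul
  have h5 : e 0 * (e 1 * (e 2 * (z : Forms))) ∈ ⋀[ℂ]^5 V6 := by
    have := mul_mem_deg (e_mem 0) (mul_mem_deg (e_mem 1) (mul_mem_deg (e_mem 2) hz))
    exact this
  have hone : ∀ i, top (e 0 * (e 1 * (e 2 * (z : Forms))) * e i) = 0 := by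
    intro i
    have h1 : e 0 * (e 1 * (e 2 * (z : Forms))) * e i = e 0 * (e 1 * (e 2 * e i)) * (z : Forms) := by
      have h2 : e 0 * (e 1 * (e 2 * (z : Forms))) * e i = e 0 * (e 1 * (e 2 * ((z : Forms) * e i))) := by
        noncomm_ring
      rw [h2, even_comm z.2.1]
      noncomm_ring
    rw [h1]
    fin_cases i
    · change top (e 0 * (e 1 * (e 2 * e 0)) * (z : Forms)) = 0
      have : e 0 * (e 1 * (e 2 * e 0)) = 0 := by
        rw [e_comm 2 0]
        have : e 0 * (e 1 * -(e 0 * e 2)) = -(e 0 * (e 1 * e 0) * e 2) := by noncomm_ring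
        rw [this, e_comm 1 0]
        have : -(e 0 * -(e 0 * e 1) * e 2) = (e 0 * e 0) * e 1 * e 2 := by noncomm_ring
        rw [this, e_mul_e]; noncomm_ring
      rw [this, zero_mul, map_zero]
    · change top (e 0 * (e 1 * (e 2 * e 1)) * (z : Forms)) = 0
      have : e 0 * (e 1 * (e 2 * e 1)) = 0 := by
        rw [e_comm 2 1]
        have : e 0 * (e 1 * -(e 1 * e 2)) = -(e 0 * (e 1 * e 1) * e 2) := by noncomm_ring
        rw [this, e_mul_e]; noncomm_ring
      rw [this, zero_mul, map_zero]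
    · change top (e 0 * (e 1 * (e 2 * e 2)) * (z : Forms)) = 0
      rw [e_mul_e 2, mul_zero, mul_zero, zero_mul, map_zero]
    · change top (e 0 * (e 1 * (e 2 * e 3)) * (z : Forms)) = 0
      rw [← exact3]; exact top_exact_mul _ _
    · change top (e 0 * (e 1 * (e 2 * e 4)) * (z : Forms)) = 0
      rw [← exact4]; exact top_exact_mul _ _
    · change top (e 0 * (e 1 * (e 2 * e 5)) * (z : Forms)) = 0
      rw [← exact5]; exact top_exact_mul _ _
  have hlin : top ∘ₗ LinearMap.mulLeft ℂ (e 0 * (e 1 * (e 2 * (z : Forms)))) = 0 := by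
    apply bE.ext
    intro S
    change top (e 0 * (e 1 * (e 2 * (z : Forms))) * bE S) = 0
    by_cases hS : S.card = 1
    · obtain ⟨i, rfl⟩ := Finset.card_eq_one.1 hS
      have h2 : bE ({i} : Finset (Fin 6)) ∈ ⋀[ℂ]^1 V6 := by
        have := bE_mem {i}
        rwa [Finset.card_singleton] at this
      rw [exteriorPower, pow_one] at h2
      obtain ⟨v, hv⟩ := h2
      rw [← hv]
      have hv2 : v = ∑ j, v j • (Pi.single j 1 : V6) := by
        ext k; simp [Finset.sum_apply, Pi.single_apply]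
      rw [hv2, map_sum, Finset.mul_sum, map_sum]
      refine Finset.sum_eq_zero fun j _ => ?_
      rw [map_smul, mul_smul_comm, map_smul]
      change v j • top (e 0 * (e 1 * (e 2 * (z : Forms))) * e j) = 0
      rw [hone j, smul_zero]
    · exact top_deg (by omega) (mul_mem_deg h5 (bE_mem S))
  intro y
  exact LinearMap.congr_fun hlin y

theorem contr_e_mul {i : Fin 6} (hi : i ≠ 0) (x : Forms) : contr (e i * x) = -(e i * contr x) := by
  rw [e, contr_ι_mul, Pi.single_eq_of_ne hi.symm, zero_smul, zero_sub]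

/-- `e₁ e₂ z z' = 0` for closed 2-forms `z`, `z'`. -/
theorem e12_mul_mul (z w : Closed) (hz : (z : Forms) ∈ ⋀[ℂ]^2 V6) (hw : (w : Forms) ∈ ⋀[ℂ]^2 V6) :
    e 1 * (e 2 * ((z : Forms) * w)) = 0 := by
  have h1 := eq_e0_mul (e012_mul z hz)
  rw [contr_e_mul (by decide), contr_e_mul (by decide), mul_neg, mul_neg, mul_neg, neg_neg] at h1
  have h2 : e 1 * (e 2 * ((z : Forms) * w)) = (e 1 * (e 2 * (z : Forms))) * w := by noncomm_ring
  rw [h2, h1]
  have h3 : e 0 * (e 1 * (e 2 * contr (z : Forms))) * (w : Forms) =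
    e 0 * (e 1 * (e 2 * (contr (z : Forms) * w))) := by noncomm_ring
  rw [h3, ← even_comm w.2.1]
  have h4 : e 0 * (e 1 * (e 2 * ((w : Forms) * contr (z : Forms)))) =
    e 0 * (e 1 * (e 2 * (w : Forms))) * contr (z : Forms) := by noncomm_ring
  rw [h4, e012_mul w hw, zero_mul]

end H956GW
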