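import Pool.Agent.H956GW.CE5

namespace H956GW

open ExteriorAlgebra

/-- The closed form `e₁ ∧ e₂`. -/
noncomputable def z12 : Closed := ⟨e 1 * e 2, inv_ee 1 2, by
  rw [d_e_e, d_e1, d_e2, zero_mul, ← mul_assoc, e_comm 1 0, neg_mul, mul_assoc, e_mul_e]
  simp⟩

/-- The symplectic form `e₀ ∧ e₅ + e₁ ∧ e₄ - e₂ ∧ e₃`. -/
noncomputable def zω : Closed := ⟨e 0 * e 5 + e 1 * e 4 - e 2 * e 3, by
  rw [map_sub, map_add, inv_ee, inv_ee, inv_ee], by
  rw [map_sub, map_add, d_e_e, d_e_e, d_e_e, d_e0, d_e1, d_e2, d_e3, d_e4, d_e5]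
  have h : 0 * e 5 - e 0 * (e 0 * e 4) + (0 * e 4 - e 1 * (e 0 * e 3)) -
      (e 0 * e 1 * e 3 - e 2 * (e 0 * e 2)) =
      -((e 0 * e 0) * e 4) - e 1 * e 0 * e 3 - e 0 * e 1 * e 3 + e 2 * e 0 * e 2 := by
    noncomm_ring
  rw [h, e_mul_e, e_comm 1 0, e_comm 2 0]
  have h2 : -(0 * e 4) - -(e 0 * e 1) * e 3 - e 0 * e 1 * e 3 + -(e 0 * e 2) * e 2 =
    -(e 0 * (e 2 * e 2)) := by noncomm_ring
  rw [h2, e_mul_e]; simp⟩

theorem cls_z12_ne : cls z12 ≠ 0 := by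
  intro h
  obtain ⟨y, -, hy⟩ := cls_eq_zero.1 h
  exact e12_not_exact y hy

theorem cls_z12_mem : cls z12 ∈ deg 1 := mem_deg.2 ⟨z12, ee_mem 1 2, rfl⟩

theorem cls_zω_mem : cls zω ∈ deg 1 :=
  mem_deg.2 ⟨zω, Submodule.sub_mem _ (Submodule.add_mem _ (ee_mem 0 5) (ee_mem 1 4)) (ee_mem 2 3),
    rfl⟩

theorem z12_mul_mul {x y : Hev} (hx : x ∈ deg 1) (hy : y ∈ deg 1) : x * (y * cls z12) = 0 := by
  obtain ⟨z, hz, rfl⟩ := mem_deg.1 hx
  obtain ⟨w, hw, rfl⟩ := mem_deg.1 hy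
  rw [← map_mul, ← map_mul]
  have : z * (w * z12) = 0 := by
    have h1 : z * (w * z12) = z12 * (z * w) := by ring
    rw [h1]
    apply Subtype.ext
    change (e 1 * e 2) * ((z : Forms) * w) = 0
    rw [mul_assoc]
    exact e12_mul_mul z w hz hw
  rw [this, map_zero]

/-- Even forms commute; cubes of sums of commuting elements of square zero. -/
theorem cube_eq {A : Type*} [Ring A] {p q r : A} (hpq : p * q = q * p) (hpr : p * r = r * p)
    (hqr : q * r = r * q) (hp : p * p = 0) (hq : q * q = 0) (hr : r * r = 0) :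
    (p + q - r) * (p + q - r) * (p + q - r) = -6 * (p * (q * r)) := by
  have h1 : (p + q - r) * (p + q - r) = 2 * (p * q) - 2 * (p * r) - 2 * (q * r) := by
    have : (p + q - r) * (p + q - r) =
      p * p + q * q + r * r + (p * q + q * p) - (p * r + r * p) - (q * r + r * q) := by
      noncomm_ring
    rw [this, hp, hq, hr, ← hpq, ← hpr, ← hqr]
    noncomm_ring
  rw [h1]
  have h2 : (2 * (p * q) - 2 * (p * r) - 2 * (q * r)) * (p + q - r) =
      2 * (p * (q * p)) + 2 * (p * (q * q)) - 2 * (p * (q * r)) - 2 * (p * (r * p)) -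
      2 * (p * (r * q)) + 2 * (p * (r * r)) - 2 * (q * (r * p)) - 2 * (q * (r * q)) +
      2 * (q * (r * r)) := by noncomm_ring
  have e1 : q * p = p * q := hpq.symm
  have e2 : r * p = p * r := hpr.symm
  have e3 : r * q = q * r := hqr.symm
  rw [h2, hq, hr, e1, e2, e3]
  have h3 : q * (p * r) = p * (q * r) := by rw [← mul_assoc, e1, mul_assoc]
  have h4 : q * (q * r) = 0 := by rw [← mul_assoc, hq, zero_mul]
  have h5 : p * (p * q) = 0 := by rw [← mul_assoc, hp, zero_mul]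
  have h6 : p * (p * r) = 0 := by rw [← mul_assoc, hp, zero_mul]
  rw [h3, h4, h5, h6]
  noncomm_ring

theorem ee_sq (i j : Fin 6) : (e i * e j) * (e i * e j) = 0 := by
  have : (e i * e j) * (e i * e j) = e i * (e j * e i) * e j := by noncomm_ring
  rw [this, e_comm j i]
  have : e i * -(e i * e j) * e j = -((e i * e i) * (e j * e j)) := by noncomm_ring
  rw [this, e_mul_e]; simp

theorem integral_ω3 : integral (cls zω ^ 3) ≠ 0 := by
  rw [← map_pow, integral_cls]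
  have h1 : ((zω ^ 3 : Closed) : Forms) = -6 * ((e 0 * e 5) * ((e 1 * e 4) * (e 2 * e 3))) := by
    have : ((zω ^ 3 : Closed) : Forms) = (e 0 * e 5 + e 1 * e 4 - e 2 * e 3) *
      (e 0 * e 5 + e 1 * e 4 - e 2 * e 3) * (e 0 * e 5 + e 1 * e 4 - e 2 * e 3) := by
      rw [pow_succ, pow_two]; rfl
    rw [this]
    exact cube_eq (even_comm (inv_ee _ _) _) (even_comm (inv_ee _ _) _) (even_comm (inv_ee _ _) _)
      (ee_sq _ _) (ee_sq _ _) (ee_sq _ _)
  have h2 : (-6 : Forms) * ((e 0 * e 5) * ((e 1 * e 4) * (e 2 * e 3))) =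
      (-6 : ℂ) • (e 0 * (e 5 * (e 1 * (e 4 * (e 2 * e 3))))) := by
    have h3 : (e 0 * e 5) * ((e 1 * e 4) * (e 2 * e 3)) =
      e 0 * (e 5 * (e 1 * (e 4 * (e 2 * e 3)))) := by noncomm_ring
    rw [h3, Algebra.smul_def, map_neg, map_ofNat]
  rw [h1, h2, map_smul, smul_eq_mul]
  have h3 := top_perm (s := ![0, 5, 1, 4, 2, 3]) (by decide)
  refine mul_ne_zero (by norm_num) ?_
  exact h3

/-- Multiples of `b` by a subalgebra all whose generators `x`, `y` satisfy `x y b = 0`. -/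
theorem adjoin_mul_mem {A : Type*} [CommRing A] [Algebra ℂ A] (D₁ D₂ : Submodule ℂ A) (b : A)
    (h1 : ∀ x ∈ D₁, x * b ∈ D₂) (h0 : ∀ x ∈ D₁, ∀ y ∈ D₁, x * (y * b) = 0)
    {S : Set A} (hS : ∀ x ∈ S, x ∈ D₁) {a : A} (ha : a ∈ Algebra.adjoin ℂ S) :
    a * b ∈ Submodule.span ℂ {b} ⊔ D₂ := by
  have key : ∀ u, (∃ t : ℂ, ∃ v ∈ D₂, (∀ y ∈ D₁, y * v = 0) ∧ u = t • b + v) →
      (∃ t : ℂ, ∃ v ∈ D₂, (∀ y ∈ D₁, y * v = 0) ∧ a * u = t • b + v) := by
    induction ha using Algebra.adjoin_induction with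
    | mem y hy =>
      rintro u ⟨t, v, hv, hv', rfl⟩
      refine ⟨0, t • (y * b), D₂.smul_mem _ (h1 y (hS y hy)), ?_, ?_⟩
      · intro x hx
        rw [mul_smul_comm, h0 x hx y (hS y hy), smul_zero]
      · rw [mul_add, hv' y (hS y hy), mul_smul_comm, zero_smul, add_zero, zero_add]
    | algebraMap r =>
      rintro u ⟨t, v, hv, hv', rfl⟩
      refine ⟨r * t, r • v, D₂.smul_mem _ hv, ?_, ?_⟩
      · intro x hx
        rw [mul_smul_comm, hv' x hx, smul_zero]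
      · rw [← Algebra.smul_def, smul_add, smul_smul]
    | add a c _ _ iha ihc =>
      intro u hu
      obtain ⟨t, v, hv, hv', h⟩ := iha u hu
      obtain ⟨t', w, hw, hw', h'⟩ := ihc u hu
      refine ⟨t + t', v + w, D₂.add_mem hv hw, ?_, ?_⟩
      · intro x hx
        rw [mul_add, hv' x hx, hw' x hx, add_zero]
      · rw [add_mul, h, h', add_smul]; abel
    | mul a c _ _ iha ihc =>
      intro u hu
      rw [mul_assoc]
      exact iha _ (ihc u hu)
  obtain ⟨t, v, hv, -, h⟩ := key b ⟨1, 0, D₂.zero_mem, fun y _ => mul_zero y, by simp⟩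
  rw [h]
  exact Submodule.add_mem_sup (Submodule.smul_mem _ _ (Submodule.mem_span_singleton_self _)) hv

theorem mul_mem_two {x y : Hev} (hx : x ∈ deg 1) (hy : y ∈ deg 1) : x * y ∈ deg 2 := by
  have h := mul_mem_deg_add hx hy
  have h2 : (1 + 1 : ℕ) = 2 := rfl
  rw [h2] at h
  exact h

theorem mul_z12_mem : ∀ x ∈ deg 1, x * cls z12 ∈ deg 2 :=
  fun _ hx => mul_mem_two hx cls_z12_mem

theorem mul_mul_z12 : ∀ x ∈ deg 1, ∀ y ∈ deg 1, x * (y * cls z12) = 0 :=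
  fun _ hx _ hy => z12_mul_mul hx hy

theorem span_z12_le : Submodule.span ℂ {cls z12} ≤ degFilt 4 := by
  rw [Submodule.span_singleton_le_iff_mem]
  have h : deg 1 ≤ degFilt 4 :=
    le_iSup₂_of_le (f := fun (k : ℕ) (_ : 2 * (k : ℤ) ≤ 4) => deg k) 1 (by norm_num) le_rfl
  exact h cls_z12_mem

theorem deg_two_le : deg 2 ≤ degFilt 4 :=
  le_iSup₂_of_le (f := fun (k : ℕ) (_ : 2 * (k : ℤ) ≤ 4) => deg k) 2 (by norm_num) le_rfl

/-- Multiples of `[e₁ ∧ e₂]` by the subalgebra generated by `H²`. -/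
theorem adjoin_mul_z12 {S : Set Hev} (hS : ∀ x ∈ S, x ∈ deg 1) {a : Hev}
    (ha : a ∈ Algebra.adjoin ℂ S) : a * cls z12 ∈ degFilt 4 :=
  (sup_le span_z12_le deg_two_le)
    (adjoin_mul_mem (deg 1) (deg 2) (cls z12) mul_z12_mem mul_mul_z12 hS ha)

theorem degFilt_zero : degFilt 0 = Submodule.span ℂ {1} := by
  rw [← deg_zero]
  apply le_antisymm
  · refine iSup₂_le fun k hk => ?_
    have : k = 0 := by omega
    rw [this]
  · exact le_iSup₂_of_le (f := fun (k : ℕ) (_ : 2 * (k : ℤ) ≤ 0) => deg k) 0 (by norm_num) le_rfl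

theorem degFilt_four : degFilt 4 ≤ LinearMap.ker integral := by
  refine iSup₂_le fun k hk => ?_
  intro x hx
  exact integral_deg (by omega) hx

end H956GW
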