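import Mathlib

/-!
# The pre-potential and the connection defined by genus-zero Gromov–Witten numbers
-/

namespace H956GW

/-- Genus-zero Gromov–Witten numbers with even insertions. `B` stands for `H₂(V, ℤ)`, `area β` for
`⟨ω, β⟩`, the algebra `H` for the even cohomology, and `inv β n γ` for the number
`⟨I_{0,n;β}, 1 ⊗ γ₀ ⊗ ⋯ ⊗ γₙ₋₁⟩`. -/
structure GWNumbers (B : Type*) (H : Type*) where
  area : B → ℝ
  inv : B → (n : ℕ) → (Fin n → H) → ℂ

variable {B : Type*} {H : Type*}

/-- The pre-potential `Φ(γ) = ∑_β ∑_{n ≥ 3} e^{-⟨ω, β⟩} / n! ⟨I_{0,n;β}, 1 ⊗ γ^{⊗ n}⟩`. -/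
noncomputable def GWNumbers.prepotential (g : GWNumbers B H) (γ : H) : ℂ :=
  ∑' β : B, ∑' n : ℕ, if 3 ≤ n then
    Complex.exp (-(g.area β : ℂ)) / (n.factorial : ℂ) * g.inv β n (fun _ => γ) else 0

/-- The properties of the Gromov–Witten numbers of an aspherical symplectic manifold: all
invariants in classes `β ≠ 0` vanish (there are no nonconstant pseudoholomorphic spheres), and in
class `0` the moduli space of stable maps is `M̄_{0,n} × V`, so that the numbers are the triple
intersection numbers for `n = 3` and vanish for `n > 3`. -/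
structure GWNumbers.IsAspherical [Zero B] [CommRing H] [Algebra ℂ H] (g : GWNumbers B H)
    (integral : H →ₗ[ℂ] ℂ) : Prop where
  area_zero : g.area 0 = 0
  eq_zero : ∀ β ≠ 0, ∀ n γ, g.inv β n γ = 0
  three : ∀ γ, g.inv 0 3 γ = integral (γ 0 * γ 1 * γ 2)
  gt_three : ∀ n, 3 < n → ∀ γ, g.inv 0 n γ = 0

/-- The third derivative `∂_x ∂_y ∂_z Φ` at the point `t`. -/
noncomputable def thirdDeriv [AddCommGroup H] [Module ℂ H] (Φ : H → ℂ) (t x y z : H) : ℂ :=
  lineDeriv ℂ (fun t₁ => lineDeriv ℂ (fun t₂ => lineDeriv ℂ Φ t₂ z) t₁ y) t x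

/-- The connection form `A` determined by the pre-potential over `H²`: for `t` and the tangent
vector `x` in `H²`, the endomorphism `y ↦ A t x y` of the even cohomology satisfies
`∫ (A t x y) z = ∂_x ∂_y ∂_z Φ (t)` for all `z`. -/
def IsGWConnection [CommRing H] [Algebra ℂ H] (integral : H →ₗ[ℂ] ℂ) (H2 : Submodule ℂ H)
    (Φ : H → ℂ) (A : H → H → H → H) : Prop :=
  ∀ t ∈ H2, ∀ x ∈ H2, ∀ y z : H, integral (A t x y * z) = thirdDeriv Φ t x y z

theorem prepotential_eq [Zero B] [CommRing H] [Algebra ℂ H] (g : GWNumbers B H)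
    {integral : H →ₗ[ℂ] ℂ} (hg : g.IsAspherical integral) (γ : H) :
    g.prepotential γ = integral (γ * γ * γ) / 6 := by
  classical
  unfold GWNumbers.prepotential
  rw [tsum_eq_single 0]
  · rw [tsum_eq_single 3]
    · rw [if_pos le_rfl, hg.three, hg.area_zero]
      norm_num [Nat.factorial]
      ring
    · intro n hn
      by_cases h : 3 ≤ n
      · rw [if_pos h, hg.gt_three n (lt_of_le_of_ne h (Ne.symm hn)), mul_zero]
      · rw [if_neg h]
  · intro β hβ
    rw [tsum_eq_single 0]
    · simp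
    · intro n _
      by_cases h : 3 ≤ n
      · rw [if_pos h, hg.eq_zero β hβ, mul_zero]
      · rw [if_neg h]

theorem lineDeriv_cubic [CommRing H] [Algebra ℂ H] (I : H →ₗ[ℂ] ℂ) (t z : H) :
    lineDeriv ℂ (fun γ => I (γ * γ * γ) / 6) t z = I (t * t * z) / 2 := by
  have h1 : ∀ s : ℂ, I ((t + s • z) * (t + s • z) * (t + s • z)) / 6 =
      I (t * t * t) / 6 + s * (I (t * t * z) / 2) + s ^ 2 * (I (t * z * z) / 2) +
        s ^ 3 * (I (z * z * z) / 6) := by
    intro s
    have : (t + s • z) * (t + s • z) * (t + s • z) =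
        t * t * t + (3 * s) • (t * t * z) + (3 * s ^ 2) • (t * z * z) + s ^ 3 • (z * z * z) := by
      simp only [Algebra.smul_def, map_mul, map_pow, map_ofNat]
      ring
    rw [this]
    simp only [map_add, map_smul, smul_eq_mul]
    ring
  unfold lineDeriv
  simp only [h1]
  have h2 : HasDerivAt (fun s : ℂ => I (t * t * t) / 6 + s * (I (t * t * z) / 2) +
      s ^ 2 * (I (t * z * z) / 2) + s ^ 3 * (I (z * z * z) / 6))
      (0 + 1 * (I (t * t * z) / 2) + ((2 : ℕ) * (0 : ℂ) ^ (2 - 1) * 1) * (I (t * z * z) / 2) +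
        ((3 : ℕ) * (0 : ℂ) ^ (3 - 1) * 1) * (I (z * z * z) / 6)) 0 :=
    ((((hasDerivAt_const 0 _).add ((hasDerivAt_id 0).mul_const _)).add
      (((hasDerivAt_id (0 : ℂ)).fun_pow 2).mul_const _)).add
      (((hasDerivAt_id (0 : ℂ)).fun_pow 3).mul_const _))
  rw [h2.deriv]
  norm_num

theorem lineDeriv_quadratic [CommRing H] [Algebra ℂ H] (I : H →ₗ[ℂ] ℂ) (t y z : H) :
    lineDeriv ℂ (fun γ => I (γ * γ * z) / 2) t y = I (t * y * z) := by
  have h1 : ∀ s : ℂ, I ((t + s • y) * (t + s • y) * z) / 2 =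
      I (t * t * z) / 2 + s * (I (t * y * z)) + s ^ 2 * (I (y * y * z) / 2) := by
    intro s
    have : (t + s • y) * (t + s • y) * z =
        t * t * z + (2 * s) • (t * y * z) + (s ^ 2) • (y * y * z) := by
      simp only [Algebra.smul_def, map_mul, map_pow, map_ofNat]
      ring
    rw [this]
    simp only [map_add, map_smul, smul_eq_mul]
    ring
  unfold lineDeriv
  simp only [h1]
  have h2 : HasDerivAt (fun s : ℂ => I (t * t * z) / 2 + s * (I (t * y * z)) +
      s ^ 2 * (I (y * y * z) / 2))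
      (0 + 1 * (I (t * y * z)) + ((2 : ℕ) * (0 : ℂ) ^ (2 - 1) * 1) * (I (y * y * z) / 2)) 0 :=
    (((hasDerivAt_const 0 _).add ((hasDerivAt_id 0).mul_const _)).add
      (((hasDerivAt_id (0 : ℂ)).fun_pow 2).mul_const _))
  rw [h2.deriv]
  norm_num

theorem lineDeriv_linear [CommRing H] [Algebra ℂ H] (I : H →ₗ[ℂ] ℂ) (t x y z : H) :
    lineDeriv ℂ (fun γ => I (γ * y * z)) t x = I (x * y * z) := by
  have h1 : ∀ s : ℂ, I ((t + s • x) * y * z) = I (t * y * z) + s * (I (x * y * z)) := by
    intro s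
    have : (t + s • x) * y * z = t * y * z + s • (x * y * z) := by
      simp only [Algebra.smul_def]
      ring
    rw [this]
    simp only [map_add, map_smul, smul_eq_mul]
  unfold lineDeriv
  simp only [h1]
  have h2 : HasDerivAt (fun s : ℂ => I (t * y * z) + s * (I (x * y * z)))
      (0 + 1 * (I (x * y * z))) 0 :=
    (hasDerivAt_const 0 _).add ((hasDerivAt_id 0).mul_const _)
  rw [h2.deriv]
  norm_num

theorem thirdDeriv_prepotential [Zero B] [CommRing H] [Algebra ℂ H] (g : GWNumbers B H)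
    {integral : H →ₗ[ℂ] ℂ} (hg : g.IsAspherical integral) (t x y z : H) :
    thirdDeriv g.prepotential t x y z = integral (x * y * z) := by
  have h1 : g.prepotential = fun γ => integral (γ * γ * γ) / 6 := funext (prepotential_eq g hg)
  unfold thirdDeriv
  rw [h1]
  simp only [lineDeriv_cubic, lineDeriv_quadratic, lineDeriv_linear]

/-- For an aspherical manifold the connection form is the cup product. -/
theorem connection_eq [Zero B] [CommRing H] [Algebra ℂ H] (g : GWNumbers B H)
    {integral : H →ₗ[ℂ] ℂ} (hg : g.IsAspherical integral)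
    (hp : ∀ x : H, (∀ y, integral (x * y) = 0) → x = 0) {H2 : Submodule ℂ H}
    {A : H → H → H → H} (hA : IsGWConnection integral H2 g.prepotential A) {t x : H}
    (ht : t ∈ H2) (hx : x ∈ H2) (y : H) : A t x y = x * y := by
  rw [← sub_eq_zero]
  apply hp
  intro z
  rw [sub_mul, map_sub, hA t ht x hx, thirdDeriv_prepotential g hg, sub_self]

end H956GW
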