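import Pool.Agent.H956GW.Var

open scoped Manifold Topology

namespace H956GW

variable {G : Type*} [NormedAddCommGroup G] [NormedSpace ℂ G]
  {M : Type*} [TopologicalSpace M] [ChartedSpace G M]
  {Γ : Type*} [Group Γ] [MulAction Γ M]
  {E : Type*} [NormedAddCommGroup E] [NormedSpace ℂ E]

/-- A holomorphic function of one variable along complex lines: if `k` is differentiable on a
convex open set `B` and vanishes near a point of `B`, it vanishes on `B`. -/
theorem eq_zero_of_eventually_zero
    {B : Set G} (hB : IsOpen B) (hc : Convex ℝ B) {k : G → ℂ} (hk : DifferentiableOn ℂ k B)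
    {z₁ : G} (hz₁ : z₁ ∈ B) (h0 : ∀ᶠ z in 𝓝 z₁, k z = 0) {z : G} (hz : z ∈ B) : k z = 0 := by
  let a : ℂ → G := fun l => z₁ + l • (z - z₁)
  have ha : Differentiable ℂ a := by
    intro l
    exact (differentiableAt_const _).add ((differentiableAt_id).smul_const _)
  have hac : Continuous a := ha.continuous
  have hD : IsOpen (a ⁻¹' B) := hB.preimage hac
  have hDc : Convex ℝ (a ⁻¹' B) := by
    intro x hx y hy s t hs ht hst
    have : a (s • x + t • y) = s • a x + t • a y := by
      simp only [a, add_smul, smul_assoc]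
      generalize x • (z - z₁) = X
      generalize y • (z - z₁) = Y
      obtain rfl : t = 1 - s := by linarith
      module
    change a (s • x + t • y) ∈ B
    rw [this]
    exact hc hx hy hs ht hst
  have ha0 : a 0 = z₁ := by simp [a]
  have ha1 : a 1 = z := by simp [a]
  have hka : DifferentiableOn ℂ (fun l => k (a l)) (a ⁻¹' B) :=
    hk.comp ha.differentiableOn (fun l hl => hl)
  have han : AnalyticOnNhd ℂ (fun l => k (a l)) (a ⁻¹' B) := hka.analyticOnNhd hD
  have hev : (fun l => k (a l)) =ᶠ[𝓝 (0 : ℂ)] 0 := by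
    have : Filter.Tendsto a (𝓝 0) (𝓝 z₁) := by
      have := hac.tendsto 0
      rwa [ha0] at this
    exact this.eventually h0
  have h0D : (0 : ℂ) ∈ a ⁻¹' B := by
    change a 0 ∈ B
    rw [ha0]; exact hz₁
  have h1D : (1 : ℂ) ∈ a ⁻¹' B := by
    change a 1 ∈ B
    rw [ha1]; exact hz
  have := han.eqOn_zero_of_preconnected_of_eventuallyEq_zero hDc.isPreconnected h0D hev h1D
  simpa [ha1] using this

/-- Identity theorem: a flat section that lies in the holomorphic subbundle `F p` over a nonempty
open set lies in it everywhere. -/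
theorem Variation.mem_of_mem_open [IsManifold 𝓘(ℂ, G) 1 M] [PreconnectedSpace M]
    [FiniteDimensional ℂ E] (X : Variation G M Γ E) (p : ℤ) (u : E) {V : Set M} (hV : IsOpen V)
    (hne : V.Nonempty) (h : ∀ m ∈ V, u ∈ X.F p m) (m : M) : u ∈ X.F p m := by
  let Z : Set M := {m | ∀ᶠ m' in 𝓝 m, u ∈ X.F p m'}
  have hZo : IsOpen Z := isOpen_setOfPred_eventually_nhds
  have hVZ : V ⊆ Z := fun m hm => Filter.mem_of_superset (hV.mem_nhds hm) h
  have hZc : IsClosed Z := by
    refine isClosed_of_closure_subset ?_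
    intro m₀ hm₀
    obtain ⟨U, hU, g, hg, hgU⟩ := X.holomorphic p m₀
    let e := chartAt G m₀
    let O : Set G := e.target ∩ e.symm ⁻¹' (interior U)
    have hO : IsOpen O := e.isOpen_inter_preimage_symm isOpen_interior
    have hm₀s : m₀ ∈ e.source := mem_chart_source _ _
    have hm₀O : e m₀ ∈ O := by
      refine ⟨e.map_source hm₀s, ?_⟩
      change e.symm (e m₀) ∈ interior U
      rw [e.left_inv hm₀s]
      exact mem_interior_iff_mem_nhds.2 hU
    obtain ⟨r, hr, hBO⟩ := Metric.isOpen_iff.1 hO (e m₀) hm₀O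
    let B := Metric.ball (e m₀) r
    let W : Set M := e.source ∩ e ⁻¹' B
    have hWo : IsOpen W := e.isOpen_inter_preimage Metric.isOpen_ball
    have hm₀W : m₀ ∈ W := ⟨hm₀s, Metric.mem_ball_self hr⟩
    have hWU : W ⊆ interior U := by
      intro m hm
      have := (hBO hm.2).2
      change e.symm (e m) ∈ interior U at this
      rwa [e.left_inv hm.1] at this
    obtain ⟨m₁, hm₁W, hm₁Z⟩ := mem_closure_iff.1 hm₀ W hWo hm₀W
    have key : ∀ m ∈ W, u ∈ X.F p m := by
      intro m hm
      rw [(hgU m (interior_subset (hWU hm))).2]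
      rw [← Subspace.forall_mem_dualAnnihilator_apply_eq_zero_iff]
      intro l hl
      -- the holomorphic function
      let k : G → ℂ := fun z => l (g (e.symm z) u)
      have hk : DifferentiableOn ℂ k B := by
        intro z hz
        have hzO := hBO hz
        have h1 : MDifferentiableAt 𝓘(ℂ, G) 𝓘(ℂ, G) e.symm z :=
          (mdifferentiableAt_atlas_symm (chart_mem_atlas _ _) hzO.1)
        have h2 : MDifferentiableAt 𝓘(ℂ, G) 𝓘(ℂ, E →L[ℂ] E) g (e.symm z) :=
          (hg _ (interior_subset hzO.2)).mdifferentiableAt (mem_interior_iff_mem_nhds.1 hzO.2)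
        have h3 : MDifferentiableAt 𝓘(ℂ, G) 𝓘(ℂ, E →L[ℂ] E) (g ∘ e.symm) z :=
          MDifferentiableAt.comp z h2 h1
        have h4 : DifferentiableAt ℂ (g ∘ e.symm) z := mdifferentiableAt_iff_differentiableAt.1 h3
        have h5 : DifferentiableAt ℂ (fun z => g (e.symm z) u) z := by
          exact h4.clm_apply (differentiableAt_const u)
        have h6 : Differentiable ℂ (fun x : E => l x) :=
          (LinearMap.toContinuousLinearMap l).differentiable
        exact ((h6 _).comp z h5).differentiableWithinAt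
      have hz₁ : e m₁ ∈ B := hm₁W.2
      have h0 : ∀ᶠ z in 𝓝 (e m₁), k z = 0 := by
        have ht : Filter.Tendsto e.symm (𝓝 (e m₁)) (𝓝 m₁) := e.tendsto_symm hm₁W.1
        have hev : ∀ᶠ m' in 𝓝 m₁, m' ∈ U ∧ u ∈ X.F p m' := by
          refine Filter.Eventually.and ?_ hm₁Z
          exact mem_interior_iff_mem_nhds.1 (hWU hm₁W)
        filter_upwards [ht.eventually hev] with z hz
        have hz2 := hz.2
        rw [(hgU _ hz.1).2] at hz2
        exact (Submodule.mem_dualAnnihilator l).1 hl _ hz2
      have := eq_zero_of_eventually_zero Metric.isOpen_ball (convex_ball _ _) hk hz₁ h0 hm.2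
      simpa [k, e.left_inv hm.1] using this
    exact Filter.mem_of_superset (hWo.mem_nhds hm₀W) key
  have hZ : Z = Set.univ := IsClopen.eq_univ ⟨hZc, hZo⟩ (hne.mono hVZ)
  have : m ∈ Z := by rw [hZ]; trivial
  exact this.self_of_nhds

end H956GW
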