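import Pool.Agent.H956GW.Ident

open scoped Manifold Topology

namespace H956GW

variable {G : Type*} [NormedAddCommGroup G] [NormedSpace ℂ G]
  {M : Type*} [TopologicalSpace M] [ChartedSpace G M]
  {Γ : Type*} [Group Γ] [MulAction Γ M]
  {E : Type*} [NormedAddCommGroup E] [NormedSpace ℂ E]
  {S : Type*} [NormedAddCommGroup S] [NormedSpace ℂ S] {H : Type*}

/-- The homeomorphism `φ` between an open subset of the vector space `S` and an open subset of the
complex manifold `M` (modelled on `G`) is biholomorphic. -/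
def IsBiholomorphic (G : Type*) [NormedAddCommGroup G] [NormedSpace ℂ G]
    {M : Type*} [TopologicalSpace M] [ChartedSpace G M]
    {S : Type*} [NormedAddCommGroup S] [NormedSpace ℂ S] (φ : OpenPartialHomeomorph S M) : Prop :=
  MDifferentiableOn 𝓘(ℂ, S) 𝓘(ℂ, G) φ φ.source ∧
    MDifferentiableOn 𝓘(ℂ, G) 𝓘(ℂ, S) φ.symm φ.target

/-- The linear isomorphisms `T t` of `H` with `E`, `t ∈ W`, depend holomorphically on `t` and carry
the connection `d + A` on the trivial bundle with fibre `H` to the trivial connection on the trivial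
bundle with fibre `E`: `∂_v (T h) = T (A_v h)` for the constant sections `h`. -/
def IsFlatIsomorphism {S H E : Type*} [NormedAddCommGroup S] [NormedSpace ℂ S] [AddCommGroup H]
    [Module ℂ H] [NormedAddCommGroup E] [NormedSpace ℂ E] (W : Set S) (A : S → S → H → H)
    (T : S → (H ≃ₗ[ℂ] E)) : Prop :=
  ∀ t ∈ W, ∀ h : H, ∃ D : S →L[ℂ] E,
    HasFDerivAt (fun t => T t h) D t ∧ ∀ v, D v = T t (A t v h)

/-- Let `H` be a complex vector space and let `d + A` be a connection on the trivial bundle with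
fibre `H` over an open subset `U` of the vector space `S`, filtered by the constant subspaces
`F p`. It is locally
equivalent at `t₀` to the variation `Y` at `m₀` if there are a biholomorphic map `φ` from a
neighbourhood of `t₀` onto a neighbourhood of `m₀` with `φ t₀ = m₀` and a holomorphic isomorphism
`T` of the bundles that carries the connection `d + A` to the flat connection of `Y` and each step
of the first filtration to a step of the second. -/
def LocallyEquivalentAt [AddCommGroup H] [Module ℂ H] (U : Set S)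
    (A : S → S → H → H) (F : ℤ → Submodule ℂ H) (t₀ : S) (Y : Variation G M Γ E) (m₀ : M) : Prop :=
  ∃ (φ : OpenPartialHomeomorph S M) (T : S → (H ≃ₗ[ℂ] E)) (f : ℤ → ℤ),
    t₀ ∈ φ.source ∧ φ.source ⊆ U ∧ φ t₀ = m₀ ∧ IsBiholomorphic G φ ∧
    IsFlatIsomorphism φ.source A T ∧
    ∀ p, ∀ t ∈ φ.source, ∀ h, h ∈ F p ↔ T t h ∈ Y.F (f p) (φ t)

section algebra

variable [CommRing H] [Algebra ℂ H] {c : S →ₗ[ℂ] H} {T : S → (H ≃ₗ[ℂ] E)} {W : Set S}

/-- Derivative along a line. -/
theorem hasDerivAt_line (hT : ∀ t ∈ W, ∀ h : H, ∃ D : S →L[ℂ] E,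
      HasFDerivAt (fun t => T t h) D t ∧ ∀ x, D x = T t (c x * h))
    {t x : S} {s : ℂ} (hs : t + s • x ∈ W) (h : H) :
    HasDerivAt (fun s : ℂ => T (t + s • x) h) (T (t + s • x) (c x * h)) s := by
  obtain ⟨D, hD, hDx⟩ := hT _ hs h
  have h1 : HasDerivAt (fun s : ℂ => t + s • x) x s := by
    simpa using ((hasDerivAt_id s).smul_const x).const_add t
  have h2 := hD.comp_hasDerivAt s h1
  rw [hDx] at h2
  exact h2

/-- The derivative of the truncated exponential series. -/
theorem hasDerivAt_expSum (hT : ∀ t ∈ W, ∀ h : H, ∃ D : S →L[ℂ] E,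
      HasFDerivAt (fun t => T t h) D t ∧ ∀ x, D x = T t (c x * h))
    {t x : S} {s : ℂ} (hs : t + s • x ∈ W) (h : H) (K : ℕ) :
    HasDerivAt (fun s : ℂ => ∑ k ∈ Finset.range (K + 1),
        ((-s) ^ k / (k.factorial : ℂ)) • T (t + s • x) (c x ^ k * h))
      (((-s) ^ K / (K.factorial : ℂ)) • T (t + s • x) (c x ^ (K + 1) * h)) s := by
  induction K with
  | zero =>
    have := hasDerivAt_line hT hs h
    simpa using this
  | succ K ih =>
    have h1 := hasDerivAt_line hT hs (c x ^ (K + 1) * h)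
    have h2 : HasDerivAt (fun s : ℂ => (-s) ^ (K + 1) / ((K + 1).factorial : ℂ))
        (-((-s) ^ K / (K.factorial : ℂ))) s := by
      have h3 : HasDerivAt (fun s : ℂ => (-s) ^ (K + 1)) (((K + 1 : ℕ) : ℂ) * (-s) ^ K * (-1)) s := by
        have := (hasDerivAt_neg s).fun_pow (K + 1)
        refine this.congr_deriv ?_
        simp
      have h4 := h3.div_const ((K + 1).factorial : ℂ)
      refine h4.congr_deriv ?_
      rw [Nat.factorial_succ]
      have : ((K : ℂ) + 1) ≠ 0 := by exact_mod_cast Nat.succ_ne_zero K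
      have h5 : (K.factorial : ℂ) ≠ 0 := by exact_mod_cast K.factorial_ne_zero
      push_cast
      field_simp
    have h5 := h2.smul h1
    have h6 := ih.add h5
    have hfun : (fun s : ℂ => ∑ k ∈ Finset.range (K + 1 + 1),
        ((-s) ^ k / (k.factorial : ℂ)) • T (t + s • x) (c x ^ k * h)) =
        (fun s : ℂ => ∑ k ∈ Finset.range (K + 1),
        ((-s) ^ k / (k.factorial : ℂ)) • T (t + s • x) (c x ^ k * h)) +
        ((fun s : ℂ => (-s) ^ (K + 1) / ((K + 1).factorial : ℂ)) •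
          fun s : ℂ => T (t + s • x) (c x ^ (K + 1) * h)) := by
      funext s
      simp only [Finset.sum_range_succ, Pi.add_apply, Pi.smul_apply']
    rw [hfun]
    convert h6 using 1
    rw [neg_smul, ← mul_assoc, ← pow_succ']
    abel

/-- Flat transport from `t` to `t + x` inside a ball. -/
theorem transport (hT : ∀ t ∈ W, ∀ h : H, ∃ D : S →L[ℂ] E,
      HasFDerivAt (fun t => T t h) D t ∧ ∀ x, D x = T t (c x * h))
    (hW : IsOpen W) (hWc : Convex ℝ W) {t x : S} (ht : t ∈ W) (htx : t + x ∈ W) (h : H)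
    {K : ℕ} (hK : c x ^ (K + 1) = 0) :
    T t h = T (t + x) (∑ k ∈ Finset.range (K + 1), ((-1) ^ k / (k.factorial : ℂ)) •
      (c x ^ k * h)) := by
  let g : ℂ → E := fun s => ∑ k ∈ Finset.range (K + 1),
        ((-s) ^ k / (k.factorial : ℂ)) • T (t + s • x) (c x ^ k * h)
  let a : ℂ → S := fun s => t + s • x
  have hac : Continuous a := by fun_prop
  have hD : IsOpen (a ⁻¹' W) := hW.preimage hac
  have hDc : Convex ℝ (a ⁻¹' W) := by
    intro u hu v hv p q hp hq hpq
    have : a (p • u + q • v) = p • a u + q • a v := by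
      simp only [a, add_smul, smul_assoc]
      generalize u • x = X
      generalize v • x = Y
      obtain rfl : q = 1 - p := by linarith
      module
    change a (p • u + q • v) ∈ W
    rw [this]
    exact hWc hu hv hp hq hpq
  have hg : ∀ s ∈ a ⁻¹' W, HasDerivAt g 0 s := by
    intro s hs
    have := hasDerivAt_expSum hT hs h K
    rw [hK] at this
    simpa using this
  have h01 : g 0 = g 1 := by
    refine hD.is_const_of_deriv_eq_zero hDc.isPreconnected
      (fun s hs => (hg s hs).differentiableAt.differentiableWithinAt)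
      (fun s hs => (hg s hs).deriv) ?_ ?_
    · change a 0 ∈ W
      simpa [a] using ht
    · change a 1 ∈ W
      simpa [a] using htx
  have h0 : g 0 = T t h := by
    simp only [g, Finset.sum_range_succ']
    simp
  have h1 : g 1 = T (t + x) (∑ k ∈ Finset.range (K + 1), ((-1) ^ k / (k.factorial : ℂ)) •
      (c x ^ k * h)) := by
    simp only [g, map_sum, map_smul, one_smul]
  rw [← h0, h01, h1]

/-- Derivatives stay in a subspace. -/
theorem mul_mem_of_forall [FiniteDimensional ℂ E]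
    (hT : ∀ t ∈ W, ∀ h : H, ∃ D : S →L[ℂ] E,
      HasFDerivAt (fun t => T t h) D t ∧ ∀ x, D x = T t (c x * h))
    (hW : IsOpen W) (N : Submodule ℂ E) {h : H} (hN : ∀ t ∈ W, T t h ∈ N) (x : S) :
    ∀ t ∈ W, T t (c x * h) ∈ N := by
  intro t ht
  rw [← Subspace.forall_mem_dualAnnihilator_apply_eq_zero_iff]
  intro l hl
  have hl' : ∀ u ∈ N, l u = 0 := fun u hu => (Submodule.mem_dualAnnihilator l).1 hl u hu
  have h1 : HasDerivAt (fun s : ℂ => T (t + s • x) h) (T (t + (0 : ℂ) • x) (c x * h)) 0 :=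
    hasDerivAt_line hT (by simpa using ht) h
  have h2 : HasDerivAt (fun s : ℂ => l (T (t + s • x) h)) (l (T (t + (0 : ℂ) • x) (c x * h))) 0 :=
    (LinearMap.toContinuousLinearMap l).hasFDerivAt.comp_hasDerivAt 0 h1
  have h3 : (fun s : ℂ => l (T (t + s • x) h)) =ᶠ[𝓝 0] fun _ => 0 := by
    have hac : Continuous (fun s : ℂ => t + s • x) := by fun_prop
    have : (fun s : ℂ => t + s • x) ⁻¹' W ∈ 𝓝 (0 : ℂ) :=
      (hW.preimage hac).mem_nhds (by simpa using ht)
    filter_upwards [this] with s hs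
    exact hl' _ (hN _ hs)
  have h4 := h2.congr_of_eventuallyEq h3.symm
  have h5 := h4.unique (hasDerivAt_const 0 (0 : ℂ))
  simpa using h5

theorem adjoin_mul_mem_of_forall [FiniteDimensional ℂ E]
    (hT : ∀ t ∈ W, ∀ h : H, ∃ D : S →L[ℂ] E,
      HasFDerivAt (fun t => T t h) D t ∧ ∀ x, D x = T t (c x * h))
    (hW : IsOpen W) (N : Submodule ℂ E) {a : H} (ha : a ∈ Algebra.adjoin ℂ (Set.range c)) :
    ∀ {h : H}, (∀ t ∈ W, T t h ∈ N) → ∀ t ∈ W, T t (a * h) ∈ N := by
  induction ha using Algebra.adjoin_induction with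
  | mem a ha =>
    obtain ⟨x, rfl⟩ := ha
    intro h hN
    exact mul_mem_of_forall hT hW N hN x
  | algebraMap z =>
    intro h hN t ht
    rw [← Algebra.smul_def, map_smul]
    exact N.smul_mem _ (hN t ht)
  | add a b _ _ iha ihb =>
    intro h hN t ht
    rw [add_mul, map_add]
    exact N.add_mem (iha hN t ht) (ihb hN t ht)
  | mul a b _ _ iha ihb =>
    intro h hN t ht
    rw [mul_assoc]
    exact iha (ihb hN) t ht

end algebra

/-- **Criterion.** Let `H` be a finite-dimensional commutative algebra and let the connection on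
the trivial bundle with fibre `H` be multiplication by `c x`, `x ∈ S`. Suppose that one step of
the filtration is the line spanned by `1` and that another, `F p₁`, lies in the kernel of a
functional `I` with `I (c w ^ d) ≠ 0`. If the subalgebra generated by the image of `c` contains an
element `b ≠ 0` all whose multiples by elements of the subalgebra lie in `F p₁`, the variation is
not locally equivalent to any semisimple variation. -/
theorem not_locallyEquivalent [CommRing H] [Algebra ℂ H] (c : S →ₗ[ℂ] H)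
    (I : H →ₗ[ℂ] ℂ) (d : ℕ)
    (hI0 : ∀ x, ∀ k < d, I (c x ^ k) = 0) (hI1 : ∀ x, ∀ k, d < k → c x ^ k = 0)
    {w : S} (hw : I (c w ^ d) ≠ 0)
    (b : H) (hbA : b ∈ Algebra.adjoin ℂ (Set.range c)) (hb0 : b ≠ 0)
    (U : Set S) (A : S → S → H → H) (hA : ∀ t ∈ U, ∀ x h, A t x h = c x * h)
    (F : ℤ → Submodule ℂ H)
    {p₀ p₁ : ℤ} (hG0 : F p₀ = Submodule.span ℂ {1}) (hG1 : F p₁ ≤ LinearMap.ker I)
    (hbG : ∀ a ∈ Algebra.adjoin ℂ (Set.range c), a * b ∈ F p₁)
    (t₀ : S) [IsManifold 𝓘(ℂ, G) 1 M] [PreconnectedSpace M] [FiniteDimensional ℂ E]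
    (Y : Variation G M Γ E) (hY : Y.Semisimple) (m₀ : M) :
    ¬ LocallyEquivalentAt U A F t₀ Y m₀ := by
  rintro ⟨φ, T, f, ht₀, hφU, -, -, hTA, hF⟩
  -- a ball
  obtain ⟨ε, hε, hball⟩ := Metric.isOpen_iff.1 φ.open_source t₀ ht₀
  let W := Metric.ball t₀ ε
  have hWo : IsOpen W := Metric.isOpen_ball
  have hWc : Convex ℝ W := convex_ball _ _
  have ht₀W : t₀ ∈ W := Metric.mem_ball_self hε
  have hT : ∀ t ∈ W, ∀ h : H, ∃ D : S →L[ℂ] E,
      HasFDerivAt (fun t => T t h) D t ∧ ∀ x, D x = T t (c x * h) := by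
    intro t ht h
    obtain ⟨D, hD, hDx⟩ := hTA t (hball ht) h
    refine ⟨D, hD, fun x => ?_⟩
    rw [hDx, hA t (hφU (hball ht))]
  have hF' : ∀ p, ∀ t ∈ W, (F p).map (T t).toLinearMap = Y.F (f p) (φ t) := by
    intro p t ht
    ext u
    constructor
    · rintro ⟨h, hh, rfl⟩
      exact (hF p t (hball ht) h).1 hh
    · intro hu
      refine ⟨(T t).symm u, (hF p t (hball ht) _).2 ?_, (T t).apply_symm_apply u⟩
      rwa [(T t).apply_symm_apply]
  -- the nilpotency bound
  have hK : ∀ x, c x ^ (d + 1) = 0 := fun x => hI1 x _ (Nat.lt_succ_self d)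
  -- the two flat subbundles
  let E₁ : Submodule ℂ E := ⨆ m, Y.F (f p₀) m
  let K : Submodule ℂ E := ⨅ m, Y.F (f p₁) m
  have hE₁ : ∀ γ, ∀ u ∈ E₁, Y.ρ γ u ∈ E₁ := by
    intro γ u hu
    have h1 : E₁ ≤ E₁.comap (Y.ρ γ).toLinearMap := by
      refine iSup_le fun m => ?_
      intro u hu
      exact (le_iSup (fun m => Y.F (f p₀) m) (γ • m)) ((Y.equivariant γ (f p₀) m u).2 hu)
    exact h1 hu
  have hK' : ∀ γ, ∀ u ∈ K, Y.ρ γ u ∈ K := by
    intro γ u hu
    refine (Submodule.mem_iInf _).2 fun m => ?_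
    have h1 : u ∈ Y.F (f p₁) (γ⁻¹ • m) := (Submodule.mem_iInf _).1 hu _
    have h2 := (Y.equivariant γ (f p₁) (γ⁻¹ • m) u).2 h1
    rwa [smul_inv_smul] at h2
  obtain ⟨N', hN', hcomp, hFN⟩ := hY (E₁ ⊓ K) (fun γ u hu => ⟨hE₁ γ u hu.1, hK' γ u hu.2⟩)
  -- the section `v t = T t 1`
  have hv : ∀ t ∈ W, Y.F (f p₀) (φ t) = Submodule.span ℂ {T t 1} := by
    intro t ht
    rw [← hF' p₀ t ht, hG0, Submodule.map_span, Set.image_singleton]
    rfl
  have hvE₁ : ∀ t ∈ W, T t 1 ∈ E₁ := by
    intro t ht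
    have : T t 1 ∈ Y.F (f p₀) (φ t) := by
      rw [hv t ht]
      exact Submodule.mem_span_singleton_self _
    exact (le_iSup (fun m => Y.F (f p₀) m) (φ t)) this
  -- `v t` does not lie in `K`
  have hvK : ∀ t ∈ W, T t 1 ∉ K := by
    intro t ht hmem
    -- choose a small multiple of `w`
    have hcont : Continuous (fun s : ℂ => t + s • w) := by fun_prop
    have hev : ∀ᶠ s in 𝓝 (0 : ℂ), t + s • w ∈ W := by
      apply hcont.continuousAt.eventually
      simpa using hWo.mem_nhds ht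
    obtain ⟨s, hs, hs0⟩ := ((hev.filter_mono nhdsWithin_le_nhds).and
      (self_mem_nhdsWithin : {0}ᶜ ∈ 𝓝[≠] (0 : ℂ))).exists
    have hs0' : s ≠ 0 := hs0
    have h1 := transport hT hWo hWc ht hs 1 (hK (s • w))
    have h2 : T t 1 ∈ Y.F (f p₁) (φ (t + s • w)) := (Submodule.mem_iInf _).1 hmem _
    rw [← hF' p₁ _ hs, h1] at h2
    obtain ⟨y, hy, hy'⟩ := h2
    have h3 := (T (t + s • w)).injective hy'
    rw [h3] at hy
    have h4 : I (∑ k ∈ Finset.range (d + 1), ((-1) ^ k / (k.factorial : ℂ)) •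
      (c (s • w) ^ k * 1)) = 0 := hG1 hy
    rw [map_sum, Finset.sum_range_succ, Finset.sum_eq_zero, zero_add] at h4
    · simp only [mul_one, map_smul, smul_pow, smul_eq_mul] at h4
      have h5 : (-1 : ℂ) ^ d / (d.factorial : ℂ) ≠ 0 := by
        refine div_ne_zero (pow_ne_zero _ (by norm_num)) ?_
        exact_mod_cast d.factorial_ne_zero
      exact (mul_ne_zero h5 (mul_ne_zero (pow_ne_zero _ hs0') hw)) h4
    · intro k hk
      rw [mul_one, map_smul, hI0 _ k (Finset.mem_range.1 hk), smul_zero]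
  -- hence `v t` lies in `N'`
  have hvN' : ∀ t ∈ W, T t 1 ∈ N' := by
    intro t ht
    have h1 := hFN (f p₀) (φ t)
    have h2 : T t 1 ∈ (Y.F (f p₀) (φ t) ⊓ (E₁ ⊓ K)) ⊔ (Y.F (f p₀) (φ t) ⊓ N') := by
      rw [← h1, hv t ht]
      exact Submodule.mem_span_singleton_self _
    obtain ⟨x, hx, y, hy, hxy⟩ := Submodule.mem_sup.1 h2
    rw [hv t ht] at hx hy
    obtain ⟨α, hα⟩ := Submodule.mem_span_singleton.1 hx.1
    obtain ⟨β, hβ⟩ := Submodule.mem_span_singleton.1 hy.1
    have hα0 : α = 0 := by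
      by_contra hne
      have : T t 1 ∈ K := by
        have h3 : α⁻¹ • x ∈ K := K.smul_mem _ hx.2.2
        rwa [← hα, smul_smul, inv_mul_cancel₀ hne, one_smul] at h3
      exact hvK t ht this
    rw [← hxy, ← hα, hα0, zero_smul, zero_add]
    exact hy.2
  -- the vector `T t₀ b`
  have hbE₁ : T t₀ b ∈ E₁ := by
    have := adjoin_mul_mem_of_forall hT hWo E₁ hbA hvE₁ t₀ ht₀W
    rwa [mul_one] at this
  have hbN' : T t₀ b ∈ N' := by
    have := adjoin_mul_mem_of_forall hT hWo N' hbA hvN' t₀ ht₀W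
    rwa [mul_one] at this
  have hbK : T t₀ b ∈ K := by
    refine (Submodule.mem_iInf _).2 fun m => ?_
    -- open set `φ '' W`
    have hopen : IsOpen (φ '' W) := φ.isOpen_image_of_subset_source hWo hball
    refine Y.mem_of_mem_open (f p₁) (T t₀ b) hopen ⟨φ t₀, t₀, ht₀W, rfl⟩ ?_ m
    rintro _ ⟨t, ht, rfl⟩
    have hxx : t₀ + (t - t₀) = t := by abel
    have h1 := transport hT hWo hWc ht₀W (x := t - t₀) (by rw [hxx]; exact ht) b (hK _)
    rw [h1, hxx, ← hF' p₁ t ht]
    refine ⟨_, ?_, rfl⟩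
    refine (F p₁).sum_mem fun k _ => (F p₁).smul_mem _ (hbG _ ?_)
    exact Subalgebra.pow_mem _ (Algebra.subset_adjoin (Set.mem_range_self _)) k
  have h0 : T t₀ b = 0 := Submodule.disjoint_def.1 hcomp.disjoint _ ⟨hbE₁, hbK⟩ hbN'
  exact hb0 ((T t₀).map_eq_zero_iff.1 h0)

end H956GW
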