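import Pool.Agent.H956GW.Stmt

namespace H956GW

open ExteriorAlgebra

theorem wedge_eq {k : ℕ} (v : Fin k → OneForms) : wedge (ExteriorAlgebra.ι ℂ) v = ιMulti ℂ k v := by
  rw [ιMulti_apply]; rfl

theorem formsOfDegree_eq (k : ℕ) :
    formsOfDegree (ExteriorAlgebra.ι ℂ) k = (⋀[ℂ]^k OneForms) := by
  rw [← ιMulti_span_fixedDegree, formsOfDegree]
  congr 1
  ext z
  constructor
  · rintro ⟨v, rfl⟩; exact ⟨v, (wedge_eq v).symm⟩
  · rintro ⟨v, rfl⟩; exact ⟨v, (wedge_eq v).symm⟩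

open Classical in
/-- The class of a form (zero if the form is not even and closed). -/
noncomputable def clsFun (z : Forms) : Hev := if h : inv z = z ∧ d z = 0 then cls ⟨z, h⟩ else 0

theorem clsFun_eq {z : Forms} (h : inv z = z ∧ d z = 0) : clsFun z = cls ⟨z, h⟩ := dif_pos h

theorem isExteriorAlgebra_ι : IsExteriorAlgebra (L := Forms) (ExteriorAlgebra.ι ℂ) :=
  ⟨AlgEquiv.refl, fun _ => rfl⟩

/-- The model. -/
noncomputable def model : NilmanifoldCohomology (L := Forms) (ExteriorAlgebra.ι ℂ) Hev where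
  sgn := inv
  sgn_one_form := fun v => CliffordAlgebra.involute_ι v
  d := d
  d_one_form := fun v => d_ι v
  leibniz := fun x y => by rw [d_mul, add_comm]
  cls := clsFun
  cls_one := by
    have h : inv (1 : Forms) = 1 ∧ d (1 : Forms) = 0 := ⟨map_one _, d_one⟩
    rw [clsFun_eq h]
    exact map_one cls
  cls_mul := fun z w hz hz' hw hw' => by
    have h : inv (z * w) = z * w ∧ d (z * w) = 0 := Closed.mul_mem ⟨hz, hz'⟩ ⟨hw, hw'⟩
    rw [clsFun_eq ⟨hz, hz'⟩, clsFun_eq ⟨hw, hw'⟩, clsFun_eq h, ← map_mul]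
    rfl
  cls_add := fun z w hz hz' hw hw' => by
    have h : inv (z + w) = z + w ∧ d (z + w) = 0 := Closed.add_mem ⟨hz, hz'⟩ ⟨hw, hw'⟩
    rw [clsFun_eq ⟨hz, hz'⟩, clsFun_eq ⟨hw, hw'⟩, clsFun_eq h, ← map_add]
    rfl
  cls_smul := fun c z hz hz' => by
    have h : inv (c • z) = c • z ∧ d (c • z) = 0 := Closed.smul_mem ⟨hz, hz'⟩ c
    rw [clsFun_eq ⟨hz, hz'⟩, clsFun_eq h, ← map_smul]
    rfl
  cls_surjective := fun h => by
    obtain ⟨z, rfl⟩ := cls_surjective h
    exact ⟨z, z.2.1, z.2.2, clsFun_eq z.2⟩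
  cls_eq_zero := fun z hz hz' => by
    rw [clsFun_eq ⟨hz, hz'⟩]
    exact cls_eq_zero
  top := top
  top_six := fun v => by rw [wedge_eq]; exact top_ιMulti_six v
  top_ne_six := fun k hk v => by rw [wedge_eq]; exact top_ιMulti hk v
  integral := integral
  integral_cls := fun z hz hz' => by
    rw [clsFun_eq ⟨hz, hz'⟩]; exact integral_cls _

theorem model_deg (k : ℕ) : model.deg k = deg k := by
  unfold NilmanifoldCohomology.deg
  rw [formsOfDegree_eq]
  apply le_antisymm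
  · rw [Submodule.span_le]
    rintro h ⟨z, hz, hz1, hz2, rfl⟩
    change clsFun z ∈ deg k
    rw [clsFun_eq ⟨hz1, hz2⟩]
    exact mem_deg.2 ⟨⟨z, ⟨hz1, hz2⟩⟩, hz, rfl⟩
  · intro h hh
    obtain ⟨z, hz, rfl⟩ := mem_deg.1 hh
    exact Submodule.subset_span ⟨z, hz, z.2.1, z.2.2, clsFun_eq z.2⟩

theorem model_filtration (p : ℤ) : model.filtration p = degFilt p := by
  unfold NilmanifoldCohomology.filtration degFilt
  simp only [model_deg]

theorem model_symplecticClass : model.symplecticClass = cls zω := clsFun_eq zω.2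

end H956GW
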