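import Pool.Agent.H956GW.Local
import Pool.Agent.H956GW.CE6
import Pool.Agent.H956GW.GW

/-!
# The even cohomology ring of the filiform nilmanifold
-/

open scoped Manifold Topology

namespace H956GW

/-- The space of left-invariant complex 1-forms, in the basis `e₀, …, e₅`. -/
abbrev OneForms : Type := Fin 6 → ℂ

variable {L : Type} [Ring L] [Algebra ℂ L]

/-- `L`, with the linear map `ι` from the space of 1-forms, is the exterior algebra. -/
def IsExteriorAlgebra (ι : OneForms →ₗ[ℂ] L) : Prop :=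
  ∃ f : ExteriorAlgebra ℂ OneForms ≃ₐ[ℂ] L, ∀ v, f (ExteriorAlgebra.ι ℂ v) = ι v

/-- The product `v₀ ∧ ⋯ ∧ vₖ₋₁` of 1-forms. -/
def wedge (ι : OneForms →ₗ[ℂ] L) {k : ℕ} (v : Fin k → OneForms) : L :=
  (List.ofFn fun i => ι (v i)).prod

/-- The forms of degree `k`: the span of the products of `k` 1-forms. -/
def formsOfDegree (ι : OneForms →ₗ[ℂ] L) (k : ℕ) : Submodule ℂ L :=
  Submodule.span ℂ {z | ∃ v : Fin k → OneForms, z = wedge ι v}

/-- The even cohomology ring `H` of the complex of invariant forms of the nilmanifold `V`. The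
algebra `L` of forms is the exterior algebra on the 1-forms, with differential `de₀ = de₁ = 0`,
`deₖ = e₀ ∧ eₖ₋₁` for `2 ≤ k ≤ 5`; `H` is the algebra of even closed forms modulo exact forms. -/
structure NilmanifoldCohomology (ι : OneForms →ₗ[ℂ] L) (H : Type) [CommRing H] [Algebra ℂ H] where
  /-- the sign involution, `(-1) ^ k` on forms of degree `k` -/
  sgn : L →ₐ[ℂ] L
  sgn_one_form : ∀ v, sgn (ι v) = -ι v
  /-- the exterior derivative of invariant forms -/
  d : L →ₗ[ℂ] L
  d_one_form : ∀ v, d (ι v) = ι (Pi.single 0 1) * ι ![0, v 2, v 3, v 4, v 5, 0]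
  leibniz : ∀ x y, d (x * y) = d x * y + sgn x * d y
  /-- the class of an even closed form -/
  cls : L → H
  cls_one : cls 1 = 1
  cls_mul : ∀ z w, sgn z = z → d z = 0 → sgn w = w → d w = 0 → cls (z * w) = cls z * cls w
  cls_add : ∀ z w, sgn z = z → d z = 0 → sgn w = w → d w = 0 → cls (z + w) = cls z + cls w
  cls_smul : ∀ (c : ℂ) (z : L), sgn z = z → d z = 0 → cls (c • z) = c • cls z
  cls_surjective : ∀ h : H, ∃ z, sgn z = z ∧ d z = 0 ∧ cls z = h
  cls_eq_zero : ∀ z, sgn z = z → d z = 0 → (cls z = 0 ↔ ∃ y, sgn y = -y ∧ d y = z)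
  /-- the coefficient of `e₀ ∧ ⋯ ∧ e₅` -/
  top : L →ₗ[ℂ] ℂ
  top_six : ∀ v : Fin 6 → OneForms, top (wedge ι v) = Matrix.det (Matrix.of v)
  top_ne_six : ∀ k ≠ 6, ∀ v : Fin k → OneForms, top (wedge ι v) = 0
  /-- integration over `V` -/
  integral : H →ₗ[ℂ] ℂ
  integral_cls : ∀ z, sgn z = z → d z = 0 → integral (cls z) = top z

namespace NilmanifoldCohomology

variable {ι : OneForms →ₗ[ℂ] L} {H : Type} [CommRing H] [Algebra ℂ H]
  (V : NilmanifoldCohomology ι H)

/-- `H^{2k}(V, ℂ)`. -/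
def deg (k : ℕ) : Submodule ℂ H :=
  Submodule.span ℂ {h | ∃ z ∈ formsOfDegree ι (2 * k), V.sgn z = z ∧ V.d z = 0 ∧ V.cls z = h}

/-- The filtration by the classes of degree at most `p`. -/
def filtration (p : ℤ) : Submodule ℂ H := ⨆ (k : ℕ) (_ : 2 * (k : ℤ) ≤ p), V.deg k

/-- The class of the invariant symplectic form `e₀ ∧ e₅ + e₁ ∧ e₄ - e₂ ∧ e₃`. -/
noncomputable def symplecticClass : H :=
  V.cls (ι (Pi.single 0 1) * ι (Pi.single 5 1) + ι (Pi.single 1 1) * ι (Pi.single 4 1) -
    ι (Pi.single 2 1) * ι (Pi.single 3 1))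

end NilmanifoldCohomology

/-- The variation over the vector space `S` given by the connection `d + A` on the trivial bundle
with fibre `H` and by the filtration `F` is locally equivalent at `t₀` to a subquotient `Y` of a
semisimple variation `X` over a connected complex manifold `Γ \ M`. -/
def IsLocallySubquotientOfSemisimple.{u₁, u₂, u₃, u₄} {S : Type} [NormedAddCommGroup S]
    [NormedSpace ℂ S] {H : Type} [AddCommGroup H] [Module ℂ H] (A : S → S → H → H)
    (F : ℤ → Submodule ℂ H) (t₀ : S) : Prop :=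
  ∃ (G : Type) (_ : NormedAddCommGroup G) (_ : NormedSpace ℂ G) (M : Type u₁)
    (_ : TopologicalSpace M) (_ : ChartedSpace G M) (_ : IsManifold 𝓘(ℂ, G) 1 M)
    (_ : ConnectedSpace M) (Γ : Type u₂) (_ : Group Γ) (_ : MulAction Γ M)
    (E : Type u₃) (_ : NormedAddCommGroup E) (_ : NormedSpace ℂ E)
    (E' : Type u₄) (_ : NormedAddCommGroup E') (_ : NormedSpace ℂ E')
    (X : Variation G M Γ E) (Y : Variation G M Γ E') (m₀ : M),
    X.Semisimple ∧ Y.IsSubquotient X ∧ LocallyEquivalentAt Set.univ A F t₀ Y m₀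

end H956GW
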