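import Mathlib

/-!
# Complex variations of Hodge structures in flat coordinates

A flat holomorphic vector bundle on a connected complex manifold `S` is described on the
universal covering `M` of `S` by a complex vector space `E` with a linear action `ρ` of the group
`Γ` of covering transformations (the monodromy); a filtration by holomorphic subbundles is a family
`F p m` of subspaces of `E`, holomorphic in `m` and equivariant under `Γ`.
-/

open scoped Manifold Topology

namespace H956GW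

section defs

variable (G : Type*) [NormedAddCommGroup G] [NormedSpace ℂ G]
  {M : Type*} [TopologicalSpace M] [ChartedSpace G M]
  {E : Type*} [NormedAddCommGroup E] [NormedSpace ℂ E]

/-- The self-map `f` of the complex manifold `M` (modelled on `G`) is holomorphic. -/
def IsHolomorphicMap (f : M → M) : Prop :=
  MDifferentiable 𝓘(ℂ, G) 𝓘(ℂ, G) f

/-- The subspaces `F m` of `E` form a holomorphic subbundle of the trivial bundle over `M` with
fibre `E`: near each point `m₀` a holomorphic family `g` of automorphisms of `E` carries it to a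
constant subbundle. -/
def IsHolomorphicSubbundle (F : M → Submodule ℂ E) : Prop :=
  ∀ m₀ : M, ∃ U ∈ 𝓝 m₀, ∃ g : M → (E →L[ℂ] E),
    MDifferentiableOn 𝓘(ℂ, G) 𝓘(ℂ, E →L[ℂ] E) g U ∧
      ∀ m ∈ U, IsUnit (g m) ∧ ∀ u, u ∈ F m ↔ g m u ∈ F m₀

/-- Griffiths transversality: the derivatives of holomorphic sections of `F` lie in `F'`. -/
def IsTransversal (F F' : M → Submodule ℂ E) : Prop :=
  ∀ U : Set M, IsOpen U → ∀ s : M → E, MDifferentiableOn 𝓘(ℂ, G) 𝓘(ℂ, E) s U →
    (∀ m ∈ U, s m ∈ F m) → ∀ m ∈ U, ∀ v, (mfderiv 𝓘(ℂ, G) 𝓘(ℂ, E) s m v : E) ∈ F' m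

end defs

/-- A complex variation of pure Hodge structures on the base `Γ \ M`. -/
structure Variation (G : Type*) [NormedAddCommGroup G] [NormedSpace ℂ G]
    (M : Type*) [TopologicalSpace M] [ChartedSpace G M]
    (Γ : Type*) [Group Γ] [MulAction Γ M]
    (E : Type*) [NormedAddCommGroup E] [NormedSpace ℂ E] where
  /-- the monodromy representation -/
  ρ : Γ →* (E ≃ₗ[ℂ] E)
  /-- the filtration, at the point `m` of the covering, in flat coordinates -/
  F : ℤ → M → Submodule ℂ E
  /-- covering transformations are holomorphic -/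
  act_holomorphic : ∀ γ : Γ, IsHolomorphicMap G (fun m : M => γ • m)
  mono : ∀ (m : M) (p q : ℤ), p ≤ q → F p m ≤ F q m
  bounded_below : ∃ p, ∀ m, F p m = ⊥
  bounded_above : ∃ p, ∀ m, F p m = ⊤
  equivariant : ∀ (γ : Γ) (p : ℤ) (m : M) (u : E), ρ γ u ∈ F p (γ • m) ↔ u ∈ F p m
  holomorphic : ∀ p : ℤ, IsHolomorphicSubbundle G (F p)
  transversal : ∀ p : ℤ, IsTransversal G (F p) (F (p + 1))

variable {G : Type*} [NormedAddCommGroup G] [NormedSpace ℂ G]
  {M : Type*} [TopologicalSpace M] [ChartedSpace G M]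
  {Γ : Type*} [Group Γ] [MulAction Γ M]
  {E : Type*} [NormedAddCommGroup E] [NormedSpace ℂ E]
  {E' : Type*} [NormedAddCommGroup E'] [NormedSpace ℂ E']

/-- The subspace `N` of the space of flat sections defines a flat subbundle: it is stable under the
monodromy. -/
def Variation.IsFlat (X : Variation G M Γ E) (N : Submodule ℂ E) : Prop :=
  ∀ γ, ∀ u ∈ N, X.ρ γ u ∈ N

/-- Complete reducibility, in the form of Deligne's semisimplicity theorem for the polarizable
variations carried by families of smooth projective varieties: every flat subbundle `N` has a flat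
complement `N'` such that the filtration is the sum of its intersections with `N` and `N'`. -/
def Variation.Semisimple (X : Variation G M Γ E) : Prop :=
  ∀ N : Submodule ℂ E, X.IsFlat N → ∃ N' : Submodule ℂ E, X.IsFlat N' ∧ IsCompl N N' ∧
    ∀ p m, X.F p m = (X.F p m ⊓ N) ⊔ (X.F p m ⊓ N')

/-- `Y` is a subquotient of `X`: there is a flat subbundle `P` of `X` and a flat surjection of `P`
onto `Y` that maps the filtration induced on `P` onto the filtration of `Y`. -/
def Variation.IsSubquotient (Y : Variation G M Γ E') (X : Variation G M Γ E) : Prop :=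
  ∃ P : Submodule ℂ E, X.IsFlat P ∧ ∃ π : P →ₗ[ℂ] E', Function.Surjective π ∧
    (∀ (γ : Γ) (x y : P), (y : E) = X.ρ γ (x : E) → π y = Y.ρ γ (π x)) ∧
    ∀ p m, Y.F p m = ((X.F p m).comap P.subtype).map π

/-- A subquotient of a semisimple variation is semisimple. -/
theorem Variation.Semisimple.subquotient {X : Variation G M Γ E} (hX : X.Semisimple)
    {Y : Variation G M Γ E'} (hY : Y.IsSubquotient X) : Y.Semisimple := by
  obtain ⟨P, hP, π, hπs, hπρ, hF⟩ := hY
  intro N hN
  -- pull back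
  let N₁ : Submodule ℂ E := (N.comap π).map P.subtype
  have hN₁P : N₁ ≤ P := by
    rintro x ⟨y, -, rfl⟩
    exact y.2
  have hN₁ : X.IsFlat N₁ := by
    rintro γ _ ⟨y, hy, rfl⟩
    have hy' : X.ρ γ (y : E) ∈ P := hP γ _ y.2
    refine ⟨⟨X.ρ γ (y : E), hy'⟩, ?_, rfl⟩
    change π _ ∈ N
    rw [hπρ γ y ⟨X.ρ γ (y : E), hy'⟩ rfl]
    exact hN γ _ hy
  obtain ⟨N₂, hN₂, hc, hFN⟩ := hX N₁ hN₁
  -- image of the complement
  refine ⟨(N₂.comap P.subtype).map π, ?_, ?_, ?_⟩
  · rintro γ _ ⟨y, hy, rfl⟩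
    have hy' : X.ρ γ (y : E) ∈ P := hP γ _ y.2
    refine ⟨⟨X.ρ γ (y : E), hy'⟩, ?_, ?_⟩
    · exact hN₂ γ _ hy
    · exact hπρ γ y ⟨X.ρ γ (y : E), hy'⟩ rfl
  · constructor
    · rw [Submodule.disjoint_def]
      rintro z hz ⟨y, hy, rfl⟩
      have h1 : (y : E) ∈ N₁ := ⟨y, hz, rfl⟩
      have h2 : (y : E) ∈ N₂ := hy
      have h3 : (y : E) = 0 := Submodule.disjoint_def.1 hc.disjoint _ h1 h2
      have h4 : y = 0 := Subtype.ext h3
      rw [h4, map_zero]
    · rw [codisjoint_iff, eq_top_iff]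
      rintro z -
      obtain ⟨y, rfl⟩ := hπs z
      have h1 : (y : E) ∈ N₁ ⊔ N₂ := by
        rw [hc.sup_eq_top]; trivial
      obtain ⟨a, ha, b, hb, hab⟩ := Submodule.mem_sup.1 h1
      have haP : a ∈ P := hN₁P ha
      have hbP : b ∈ P := by
        have : b = (y : E) - a := by rw [← hab]; abel
        rw [this]; exact P.sub_mem y.2 haP
      have hy : y = ⟨a, haP⟩ + ⟨b, hbP⟩ := Subtype.ext hab.symm
      rw [hy, map_add]
      refine Submodule.add_mem_sup ?_ ?_
      · obtain ⟨y', hy', hy''⟩ := ha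
        have : (⟨a, haP⟩ : P) = y' := Subtype.ext hy''.symm
        rw [this]; exact hy'
      · exact ⟨⟨b, hbP⟩, hb, rfl⟩
  · intro p m
    apply le_antisymm
    · intro z hz
      rw [hF] at hz
      obtain ⟨y, hy, rfl⟩ := hz
      have hy1 : (y : E) ∈ (X.F p m ⊓ N₁) ⊔ (X.F p m ⊓ N₂) := by
        rw [← hFN p m]; exact hy
      obtain ⟨a, ha, b, hb, hab⟩ := Submodule.mem_sup.1 hy1
      have haP : a ∈ P := hN₁P ha.2
      have hbP : b ∈ P := by
        have : b = (y : E) - a := by rw [← hab]; abel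
        rw [this]; exact P.sub_mem y.2 haP
      have hy : y = ⟨a, haP⟩ + ⟨b, hbP⟩ := Subtype.ext hab.symm
      rw [hy, map_add]
      refine Submodule.add_mem_sup ⟨?_, ?_⟩ ⟨?_, ?_⟩
      · rw [hF]; exact ⟨⟨a, haP⟩, ha.1, rfl⟩
      · obtain ⟨y', hy', hy''⟩ := ha.2
        have : (⟨a, haP⟩ : P) = y' := Subtype.ext hy''.symm
        rw [this]; exact hy'
      · rw [hF]; exact ⟨⟨b, hbP⟩, hb.1, rfl⟩
      · exact ⟨⟨b, hbP⟩, hb.2, rfl⟩
    · exact sup_le inf_le_left inf_le_left

end H956GW
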